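import Pool.Agent.H58.AL.Trade
import Pool.Agent.H58.LG.Par
import Pool.Agent.H58.LG.Blk

/-! The choice of the parameters for the trade-off. -/

set_option autoImplicit false
set_option linter.unusedSectionVars false

namespace Pool.Agent.H58.AL

open Finset
open Pool.Agent.H58.LG
open Pool.Agent.H25.NM (nc nc_eq nc_le_card)

/-- The parameters. -/
noncomputable def par2 {u l k q s N : ℕ} {ε : ℝ} (hu : 10 ≤ u) (hl : 2 ≤ l) (hk : 5 * k ≤ 2 ^ u)
    (hkl : 3 * l + 3 ≤ k) (hq : 40 * l + 20 ≤ q) (hs : s ≤ (2 ^ u) ^ l) (hN : N ≤ (2 ^ u) ^ l)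
    (hε : 1 ≤ ε * ((2 : ℝ) ^ u) ^ l) :
    Par k q (2 ^ (10 * u)) s N ε := by
  have hz0 : (1024 : ℝ) ≤ 2 ^ u := by
    calc (1024 : ℝ) = 2 ^ 10 := by norm_num
      _ ≤ 2 ^ u := pow_le_pow_right₀ (by norm_num) hu
  have hm : ((2 ^ (10 * u) : ℕ) : ℝ) = (2 ^ u : ℝ) ^ 10 := by
    push_cast
    rw [← pow_mul, mul_comm]
  have hkz : 5 * (k : ℝ) ≤ 2 ^ u := by exact_mod_cast hk
  have hsz : (s : ℝ) ≤ (2 ^ u : ℝ) ^ l := by exact_mod_cast hs
  have hNz : (N : ℝ) ≤ (2 ^ u : ℝ) ^ l := by exact_mod_cast hN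
  have huz : 28 * (u : ℝ) ≤ 2 ^ u := by exact_mod_cast u_le u (by omega)
  have htp2 : (2 : ℝ) ^ (2 ^ (2 * u - 4)) * (1 / 2) ^ (2 ^ (2 * u - 4) + u * (22 * l + 11)) =
      1 / (2 ^ u : ℝ) ^ (22 * l + 11) := by
    rw [pow_add, one_div_pow, one_div_pow, pow_mul]
    have h1 : (2 : ℝ) ^ (2 ^ (2 * u - 4)) ≠ 0 := by positivity
    rw [← mul_assoc, mul_one_div_cancel h1, one_mul]
  have hpu : ((2 ^ (2 * u - 4) + u * (22 * l + 11) : ℕ) : ℝ) * 112 ≤ 15 * (2 ^ u) ^ 2 := by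
    have h1 : ((2 ^ (2 * u - 4) : ℕ) : ℝ) * 16 = (2 ^ u) ^ 2 := by
      have : (2 : ℕ) ^ (2 * u - 4) * 16 = (2 ^ u) ^ 2 := by
        calc (2 : ℕ) ^ (2 * u - 4) * 16 = 2 ^ (2 * u - 4) * 2 ^ 4 := by norm_num
          _ = 2 ^ (2 * u) := by rw [← pow_add]; congr 1; omega
          _ = (2 ^ u) ^ 2 := by rw [← pow_mul, mul_comm]
      exact_mod_cast this
    have h2 : ((u * (22 * l + 11) : ℕ) : ℝ) * 14 ≤ (2 ^ u) ^ 2 := by
      have h3 : ((u * (22 * l + 11) : ℕ) : ℝ) ≤ 8 * (u * k) := by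
        have : u * (22 * l + 11) ≤ 8 * (u * k) := by
          calc u * (22 * l + 11) ≤ u * (8 * k) := Nat.mul_le_mul_left _ (by omega)
            _ = 8 * (u * k) := by ring
        exact_mod_cast this
      have h4 : (28 * (u : ℝ)) * (5 * k) ≤ 2 ^ u * 2 ^ u :=
        mul_le_mul huz hkz (by positivity) (by positivity)
      have h5 : (0 : ℝ) ≤ u * k := by positivity
      nlinarith
    push_cast at h1 h2 ⊢
    linarith
  have hk0 : (1 : ℝ) ≤ k := by
    have : 1 ≤ k := by omega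
    exact_mod_cast this
  generalize hz : (2 : ℝ) ^ u = z at *
  have hz1 : (1 : ℝ) ≤ z := by linarith
  have hzp : (0 : ℝ) < z := by linarith
  have hε0 : 0 < ε := by
    by_contra hcon
    push Not at hcon
    have : ε * z ^ l ≤ 0 := mul_nonpos_of_nonpos_of_nonneg hcon (by positivity)
    linarith
  have hκm : 1 / z ^ 6 * ((2 ^ (10 * u) : ℕ) : ℝ) = z ^ 4 := by
    rw [hm]
    field_simp
  have h1k : (1 + (k : ℝ)) ^ l ≤ z ^ l := pow_le_pow_left₀ (by positivity) (by linarith) _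
  have h4k : (1 + (k : ℝ) * 4) ^ (14 * l + 8) ≤ z ^ (14 * l + 8) :=
    pow_le_pow_left₀ (by positivity) (by linarith) _
  have hεz : 1 / z ^ l ≤ ε := by
    rw [div_le_iff₀ (by positivity)]
    exact hε
  have hε16 : 1 / z ^ (l + 1) ≤ ε / 16 := by
    have e1 : 1 / z ^ (l + 1) = 1 / z ^ l * (1 / z) := by
      rw [pow_succ]
      field_simp
    have e2 : 1 / z ≤ 1 / 16 := one_div_le_one_div_of_le (by norm_num) (by linarith)
    rw [e1]
    calc 1 / z ^ l * (1 / z) ≤ ε * (1 / 16) :=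
          mul_le_mul hεz e2 (by positivity) hε0.le
      _ = ε / 16 := by ring
  have hpw : ∀ a b : ℕ, a + l + 1 ≤ b → z ^ a / z ^ b ≤ ε / 16 := by
    intro a b hab
    refine le_trans ?_ hε16
    rw [div_le_div_iff₀ (by positivity) (by positivity), one_mul, ← pow_add]
    exact pow_le_pow_right₀ hz1 (by omega)
  have h4z : (4 : ℝ) ≤ z := by linarith
  -- the first term
  have hT0 : (1 + (k : ℝ)) ^ l * (4 * (1 / z) ^ (14 * l + 8 + 1 - l)) ≤ z ^ (l + 1) /
      z ^ (14 * l + 8 + 1 - l) := by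
    rw [one_div_pow]
    calc (1 + (k : ℝ)) ^ l * (4 * (1 / z ^ (14 * l + 8 + 1 - l)))
        ≤ z ^ l * (z * (1 / z ^ (14 * l + 8 + 1 - l))) := by gcongr
      _ = _ := by rw [pow_succ]; ring
  have herr : err k (5 * l + 2) (14 * l + 8) (2 ^ (2 * u - 4))
      (2 ^ (2 * u - 4) + u * (22 * l + 11)) (1 / z) ≤ z ^ (5 * l + 2 + 1) / z ^ (9 * l + 7) +
        z ^ (19 * l + 10) / z ^ (22 * l + 11) := by
    unfold err
    rw [htp2, one_div_pow]
    have e8 : (8 : ℝ) ^ (5 * l + 2) ≤ z ^ (5 * l + 2) :=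
      pow_le_pow_left₀ (by norm_num) (by linarith) _
    have e2 : (2 : ℝ) ^ (5 * l + 2) ≤ z ^ (5 * l + 2) :=
      pow_le_pow_left₀ (by norm_num) (by linarith) _
    have e3 : 14 * l + 8 + 1 - (5 * l + 2) = 9 * l + 7 := by omega
    rw [e3]
    refine add_le_add ?_ ?_
    · calc 4 * 8 ^ (5 * l + 2) * (1 / z ^ (9 * l + 7))
          ≤ z * z ^ (5 * l + 2) * (1 / z ^ (9 * l + 7)) := by gcongr
        _ = _ := by rw [pow_succ z (5 * l + 2)]; ring
    · calc 1 / z ^ (22 * l + 11) * 2 ^ (5 * l + 2) * (1 + (k : ℝ) * 4) ^ (14 * l + 8)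
          ≤ 1 / z ^ (22 * l + 11) * z ^ (5 * l + 2) * z ^ (14 * l + 8) := by gcongr
        _ = _ := by
          have : 19 * l + 10 = (5 * l + 2) + (14 * l + 8) := by ring
          rw [this, pow_add]
          ring
  exact
    { p := 2 ^ (2 * u - 4) + u * (22 * l + 11)
      t := 2 ^ (2 * u - 4)
      d := l
      d' := 5 * l + 2
      D := 14 * l + 8
      κ := 1 / z ^ 6
      κ1 := 1 / z ^ (17 * l + 9)
      η := 1 / z ^ (2 * l + 1)
      h := 1 / (k * z)
      ρ := 1 / z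
      hp := le_trans Nat.one_le_two_pow (Nat.le_add_right _ _)
      htp := Nat.le_add_right _ _
      hdD := by omega
      hdD' := by omega
      hq := by omega
      hκ := by positivity
      hκ1 := by positivity
      hη := by positivity
      hκm := by
        rw [hκm]
        exact one_le_pow₀ hz1
      hηκ := by
        rw [hκm, one_div_mul_eq_div, div_le_one (by positivity)]
        exact pow_le_pow_right₀ hz1 (by omega)
      hd := by
        rw [hκm, mul_one_div, one_le_div (by positivity), ← pow_mul]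
        exact pow_le_pow_right₀ hz1 (by omega)
      hd' := by
        rw [hκm, div_mul_div_comm, one_mul, mul_one_div, one_le_div (by positivity), ← pow_mul,
          ← pow_add]
        exact pow_le_pow_right₀ hz1 (by omega)
      hh0 := by positivity
      hh := by
        rw [div_pow, one_pow, mul_one_div, div_le_div_iff₀ (by positivity) (by positivity),
          one_mul, mul_pow]
        have e1 : (k : ℝ) ^ 2 * 25 ≤ z ^ 2 := by
          have := pow_le_pow_left₀ (by positivity) hkz 2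
          calc (k : ℝ) ^ 2 * 25 = (5 * k) ^ 2 := by ring
            _ ≤ z ^ 2 := this
        obtain ⟨pp, hpp⟩ : ∃ pp : ℝ, pp = ((2 ^ (2 * u - 4) + u * (22 * l + 11) : ℕ) : ℝ) :=
          ⟨_, rfl⟩
        rw [← hpp] at hpu ⊢
        have hpp0 : 0 ≤ pp := by
          rw [hpp]
          positivity
        calc 128 * pp * (k ^ 2 * z ^ 2) = 128 / 2800 * (pp * 112) * (k ^ 2 * 25) * z ^ 2 := by
              ring
          _ ≤ 128 / 2800 * (15 * z ^ 2) * z ^ 2 * z ^ 2 := by gcongr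
          _ = 1920 / 2800 * z ^ 6 := by ring
          _ ≤ 1 * z ^ 6 := by gcongr; norm_num
          _ = z ^ 6 := one_mul _
      hρ := by
        have hk0' : (k : ℝ) ≠ 0 := by positivity
        have : (k : ℝ) * (1 / (k * z)) = 1 / z := by
          field_simp
        rw [this]
      hρ1 := one_div_le_one_div_of_le (by norm_num) (by linarith)
      hε := hε0.le
      n1 := by
        refine lt_of_le_of_lt hT0 ?_
        have e1 : z ^ (l + 1) / z ^ (14 * l + 8 + 1 - l) ≤ 1 / z := by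
          rw [div_le_div_iff₀ (by positivity) (by positivity), one_mul, ← pow_succ]
          exact pow_le_pow_right₀ hz1 (by omega)
        have e2 : 1 / z ≤ 1 / 16 := one_div_le_one_div_of_le (by norm_num) (by linarith)
        linarith
      n2 := by
        have t1 : (s : ℝ) * ((1 + (k : ℝ)) ^ l * (4 * (1 / z) ^ (14 * l + 8 + 1 - l))) ≤
            ε / 16 := by
          calc (s : ℝ) * ((1 + (k : ℝ)) ^ l * (4 * (1 / z) ^ (14 * l + 8 + 1 - l)))
              ≤ z ^ l * (z ^ (l + 1) / z ^ (14 * l + 8 + 1 - l)) := by gcongr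
            _ = z ^ (l + (l + 1)) / z ^ (14 * l + 8 + 1 - l) := by
                rw [pow_add z l (l + 1)]
                ring
            _ ≤ ε / 16 := hpw _ _ (by omega)
        have t2 : (N : ℝ) * (s * (err k (5 * l + 2) (14 * l + 8) (2 ^ (2 * u - 4))
            (2 ^ (2 * u - 4) + u * (22 * l + 11)) (1 / z) + 1 / z ^ (17 * l + 9) *
              (1 + (k : ℝ) * 4) ^ (14 * l + 8))) ≤ ε / 16 + ε / 16 + ε / 16 := by
          calc (N : ℝ) * (s * (err k (5 * l + 2) (14 * l + 8) (2 ^ (2 * u - 4))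
                (2 ^ (2 * u - 4) + u * (22 * l + 11)) (1 / z) + 1 / z ^ (17 * l + 9) *
                (1 + (k : ℝ) * 4) ^ (14 * l + 8)))
              ≤ z ^ l * (z ^ l * ((z ^ (5 * l + 2 + 1) / z ^ (9 * l + 7) +
                z ^ (19 * l + 10) / z ^ (22 * l + 11)) + 1 / z ^ (17 * l + 9) *
                z ^ (14 * l + 8))) := by
                have := err_nonneg k (5 * l + 2) (14 * l + 8) (2 ^ (2 * u - 4))
                  (2 ^ (2 * u - 4) + u * (22 * l + 11)) (show 0 ≤ 1 / z by positivity)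
                gcongr
            _ = z ^ (l + l + (5 * l + 2 + 1)) / z ^ (9 * l + 7) +
                z ^ (l + l + (19 * l + 10)) / z ^ (22 * l + 11) +
                z ^ (l + l + (14 * l + 8)) / z ^ (17 * l + 9) := by
                rw [pow_add z (l + l) (5 * l + 2 + 1), pow_add z (l + l) (19 * l + 10),
                  pow_add z (l + l) (14 * l + 8), pow_add z l l]
                ring
            _ ≤ ε / 16 + ε / 16 + ε / 16 :=
                add_le_add (add_le_add (hpw _ _ (by omega)) (hpw _ _ (by omega)))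
                  (hpw _ _ (by omega))
        linarith }

variable {ι α γ : Type} [Fintype ι] [DecidableEq ι] [Fintype α] [DecidableEq α] [Fintype γ]
  [DecidableEq γ]

/-- **Core.** The trade-off with explicit numbers. -/
theorem core2 {u l s N : ℕ} {ε : ℝ} (hα : Fintype.card α = 2 ^ (10 * u))
    (hu : 10 ≤ u) (hl : 2 ≤ l) (hk : 5 * Fintype.card ι ≤ 2 ^ u)
    (hkl : 3 * l + 3 ≤ Fintype.card ι) (hq : 40 * l + 20 ≤ Fintype.card γ)
    (hs : s ≤ (2 ^ u) ^ l) (hN : N ≤ (2 ^ u) ^ l) (hε : 1 ≤ ε * ((2 : ℝ) ^ u) ^ l)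
    (U : Fin s → (ι → α) → Prop) (V : Fin s → (ι → α → γ) → Prop)
    (hgate : ∀ i, Dead 2 (U i) (V i) ∨ Rel N ε U V i) (o : Fin s)
    (X : Finset (ι → α)) (Y : Finset (ι → α → γ)) (hXU : ∀ x ∈ X, U o x)
    (hYV : ∀ y ∈ Y, V o y) :
    (X.card : ℝ) ≤ (2 * (1 - Y.card / Fintype.card (ι → α → γ)) + 1 / ((2 : ℝ) ^ u) ^ l) *
      Fintype.card (ι → α) := by
  have hγ : Nonempty γ := Fintype.card_pos_iff.mp (by omega)
  have hz0 : (1024 : ℝ) ≤ 2 ^ u := by
    calc (1024 : ℝ) = 2 ^ 10 := by norm_num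
      _ ≤ 2 ^ u := pow_le_pow_right₀ (by norm_num) hu
  have hm : (Fintype.card α : ℝ) = (2 ^ u : ℝ) ^ 10 := by
    rw [hα]
    push_cast
    rw [← pow_mul, mul_comm]
  have hsz : (s : ℝ) ≤ (2 ^ u : ℝ) ^ l := by exact_mod_cast hs
  have P0 : ∃ P : Par (Fintype.card ι) (Fintype.card γ) (Fintype.card α) s N ε,
      P.d = l ∧ P.t = 2 ^ (2 * u - 4) ∧ P.κ = 1 / (2 ^ u) ^ 6 ∧
      P.η = 1 / (2 ^ u) ^ (2 * l + 1) := by
    rw [hα]
    exact ⟨par2 hu hl hk hkl hq hs hN hε, rfl, rfl, rfl, rfl⟩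
  obtain ⟨P, hPd, hPt, hPκ, hPη⟩ := P0
  obtain ⟨k, hkdef⟩ : ∃ k, k = Fintype.card ι := ⟨_, rfl⟩
  have h77 : ∀ w, 10 ≤ w → 77 * w ≤ 2 ^ w := by
    intro w hw
    induction w, hw using Nat.le_induction with
    | base => norm_num
    | succ w hw ih =>
      rw [pow_succ]
      omega
  -- the exponent
  have hexp : u * (l + 11 * k + 1) ≤ 2 ^ (2 * u - 5) ∧ l + 1 ≤ 2 ^ (2 * u - 5) := by
    have h1 : l + 11 * k + 1 ≤ 12 * k := by omega
    have h2 : 32 * 2 ^ (2 * u - 5) = 2 ^ u * 2 ^ u := by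
      calc 32 * 2 ^ (2 * u - 5) = 2 ^ 5 * 2 ^ (2 * u - 5) := by norm_num
        _ = 2 ^ (u + u) := by rw [← pow_add]; congr 1; omega
        _ = 2 ^ u * 2 ^ u := pow_add _ _ _
    have h3 : (77 * u) * (5 * k) ≤ 2 ^ u * 2 ^ u := by
      refine Nat.mul_le_mul (h77 u hu) ?_
      rw [hkdef]
      exact hk
    have h4 : u * (l + 11 * k + 1) ≤ 12 * (u * k) := by
      calc u * (l + 11 * k + 1) ≤ u * (12 * k) := Nat.mul_le_mul_left _ h1
        _ = 12 * (u * k) := by ring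
    have h5 : (77 * u) * (5 * k) = 385 * (u * k) := by ring
    have h6 : 10 * k ≤ u * k := Nat.mul_le_mul_right _ hu
    constructor <;> omega
  have hexp2 : (2 : ℝ) ^ (2 ^ (2 * u - 4)) = 2 ^ (2 ^ (2 * u - 5)) * 2 ^ (2 ^ (2 * u - 5)) := by
    rw [← pow_add]
    congr 1
    calc 2 ^ (2 * u - 4) = 2 ^ (2 * u - 5 + 1) := by congr 1; omega
      _ = 2 ^ (2 * u - 5) + 2 ^ (2 * u - 5) := by rw [pow_succ]; ring
  have hexp3 : ((2 : ℝ) ^ u) ^ (l + 11 * k + 1) ≤ 2 ^ (2 ^ (2 * u - 5)) := by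
    rw [← pow_mul]
    exact pow_le_pow_right₀ (by norm_num) hexp.1
  have hexp4 : (2 : ℝ) ^ (l + 1) ≤ 2 ^ (2 ^ (2 * u - 5)) :=
    pow_le_pow_right₀ (by norm_num) hexp.2
  rw [Fintype.card_fun (α := ι) (β := α), Nat.cast_pow, ← hkdef]
  have hT0 : (0 : ℝ) < Fintype.card (ι → α → γ) := by
    have : Nonempty (ι → α → γ) := ⟨fun _ _ => hγ.some⟩
    exact_mod_cast Fintype.card_pos
  have hYT : (Y.card : ℝ) ≤ Fintype.card (ι → α → γ) := by
    exact_mod_cast Finset.card_le_univ Y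
  obtain ⟨T, hT⟩ : ∃ T : ℝ, T = Fintype.card (ι → α → γ) := ⟨_, rfl⟩
  have htr := trade P U V (fun i => (hgate i).imp_left fun h => h.mono (by omega)) o X Y hXU hYV
  rw [hPκ, hPη, hPt, hPd, ← hT, ← hkdef] at htr
  rw [← hT] at hT0 hYT ⊢
  generalize hz : (2 : ℝ) ^ u = z at *
  have hz1 : (1 : ℝ) ≤ z := by linarith
  have hzp : (0 : ℝ) < z := by linarith
  obtain ⟨M, hM⟩ : ∃ M : ℝ, M = (Fintype.card α : ℝ) ^ k := ⟨_, rfl⟩
  rw [← hM] at htr ⊢
  have hM0 : 0 < M := by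
    rw [hM, hm]
    positivity
  have hρ0 : 0 ≤ 1 - Y.card / T := by
    have : (Y.card : ℝ) / T ≤ 1 := by
      rw [div_le_one hT0]
      exact hYT
    linarith
  have hsη : (s : ℝ) * (1 / z ^ (2 * l + 1)) ≤ 1 / z ^ (l + 1) := by
    rw [mul_one_div, div_le_div_iff₀ (by positivity) (by positivity), one_mul,
      show 2 * l + 1 = l + (l + 1) by ring, pow_add z l (l + 1)]
    exact mul_le_mul_of_nonneg_right hsz (by positivity)
  have hηl : 1 / z ^ (2 * l + 1) ≤ 1 / z ^ (l + 1) :=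
    one_div_le_one_div_of_le (by positivity) (pow_le_pow_right₀ hz1 (by omega))
  have hzl : 1 / z ^ (l + 1) * 2 ≤ 1 / z ^ l := by
    rw [pow_succ, one_div_mul_eq_div, div_le_div_iff₀ (by positivity) (by positivity)]
    have : 0 < z ^ l := by positivity
    nlinarith
  have hzl0 : 0 < 1 / z ^ (l + 1) := by positivity
  by_cases hX : (s + 1) * (1 / z ^ (2 * l + 1) * M) < X.card
  · obtain ⟨j, hj, h1, h2⟩ := htr hX
    have hκm : 1 / z ^ 6 * (Fintype.card α : ℝ) = z ^ 4 := by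
      rw [hm]
      field_simp
    rw [hκm] at h1
    obtain ⟨E, hE⟩ : ∃ E : ℝ, E = (2 : ℝ) ^ (2 ^ (2 * u - 5)) := ⟨_, rfl⟩
    rw [← hE] at hexp2 hexp3 hexp4
    have hE0 : 0 < E := (show (0 : ℝ) < 2 ^ (l + 1) by positivity).trans_le hexp4
    have e1 : 1 + (s : ℝ) * (2 ^ k * M) ≤ z ^ (l + 11 * k + 1) := by
      rw [hM, hm, ← pow_mul]
      have e3 : (2 : ℝ) ^ k ≤ z ^ k := pow_le_pow_left₀ (by norm_num) (by linarith) _
      calc 1 + (s : ℝ) * (2 ^ k * z ^ (10 * k)) ≤ z ^ (l + 11 * k) +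
            z ^ l * (z ^ k * z ^ (10 * k)) := by
            gcongr
            exact one_le_pow₀ hz1
        _ = 2 * z ^ (l + 11 * k) := by
            rw [show l + 11 * k = l + (k + 10 * k) by ring, pow_add z l, pow_add z k]
            ring
        _ ≤ z * z ^ (l + 11 * k) := by
            gcongr
            linarith
        _ = _ := by rw [pow_succ]; ring
    have h3 : (1 + (s : ℝ) * (2 ^ k * M)) * ((1 / 2) ^ (2 ^ (2 * u - 4)) * T) ≤ T / E := by
      rw [one_div_pow, hexp2]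
      calc (1 + (s : ℝ) * (2 ^ k * M)) * (1 / (E * E) * T) ≤ E * (1 / (E * E) * T) := by
            gcongr
            exact e1.trans hexp3
        _ = T / E := by
            field_simp
    -- the fractions
    have h4 : (1 / 2 : ℝ) ^ j - 1 / E ≤ 1 - Y.card / T := by
      have h5 : (1 / 2 : ℝ) ^ j * T + Y.card ≤ T + T / E := h2.trans (by linarith)
      have h6 : ((1 / 2 : ℝ) ^ j * T + Y.card) / T ≤ (T + T / E) / T :=
        div_le_div_of_nonneg_right h5 hT0.le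
      have h7 : ((1 / 2 : ℝ) ^ j * T + Y.card) / T = (1 / 2) ^ j + Y.card / T := by
        field_simp
      have h8 : (T + T / E) / T = 1 + 1 / E := by
        field_simp
      rw [h7, h8] at h6
      linarith
    have h9 : (X.card : ℝ) ≤ (1 / (z ^ 4) ^ j + s * (1 / z ^ (2 * l + 1))) * M := by
      have h10 : (X.card : ℝ) - s * (1 / z ^ (2 * l + 1) * M) ≤ M / (z ^ 4) ^ j := by
        rw [le_div_iff₀ (by positivity), mul_comm]
        exact h1
      have h11 : (1 / (z ^ 4) ^ j + s * (1 / z ^ (2 * l + 1))) * M =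
          M / (z ^ 4) ^ j + s * (1 / z ^ (2 * l + 1) * M) := by ring
      rw [h11]
      linarith
    refine h9.trans (mul_le_mul_of_nonneg_right ?_ hM0.le)
    have h12 : 1 / (z ^ 4) ^ j ≤ (1 / 2 : ℝ) ^ j := by
      rw [one_div_pow]
      refine one_div_le_one_div_of_le (by positivity) (pow_le_pow_left₀ (by norm_num) ?_ _)
      calc (2 : ℝ) ≤ z := by linarith
        _ = z ^ 1 := (pow_one z).symm
        _ ≤ z ^ 4 := pow_le_pow_right₀ hz1 (by norm_num)
    have h13 : 2 * (1 / E) ≤ (1 / 2 : ℝ) ^ j := by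
      have h14 : (1 / 2 : ℝ) ^ l ≤ (1 / 2) ^ j :=
        pow_le_pow_of_le_one (by norm_num) (by norm_num) hj
      have h15 : 2 * (1 / E) ≤ (1 / 2 : ℝ) ^ l := by
        rw [one_div_pow, mul_one_div, div_le_div_iff₀ hE0 (by positivity), one_mul]
        calc (2 : ℝ) * 2 ^ l = 2 ^ (l + 1) := by rw [pow_succ]; ring
          _ ≤ E := hexp4
      exact h15.trans h14
    linarith
  · push Not at hX
    have h1 : (s + 1) * (1 / z ^ (2 * l + 1) * M) ≤ 1 / z ^ l * M := by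
      rw [← mul_assoc]
      refine mul_le_mul_of_nonneg_right ?_ hM0.le
      have : ((s : ℝ) + 1) * (1 / z ^ (2 * l + 1)) =
          s * (1 / z ^ (2 * l + 1)) + 1 / z ^ (2 * l + 1) := by ring
      rw [this]
      linarith
    refine (hX.trans h1).trans (mul_le_mul_of_nonneg_right ?_ hM0.le)
    linarith

/-- **Block lemma with a trade-off.** -/
theorem block2 {n s R u l : ℕ} {ε : ℝ} (f : Fin s → SimpleGraph (Fin n) → Prop)
    (hf : ∀ i, Plain R ε f i) (hα : Fintype.card α = 2 ^ (10 * u))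
    (hu : 10 ≤ u) (hl : 2 ≤ l) (hk : 5 * Fintype.card ι ≤ 2 ^ u)
    (hkl : 3 * l + 3 ≤ Fintype.card ι) (hq : 40 * l + 20 ≤ Fintype.card γ)
    (hs : s ≤ (2 ^ u) ^ l) (hN : R + 1 + 2 * s ≤ (2 ^ u) ^ l) (hε : 1 ≤ ε * ((2 : ℝ) ^ u) ^ l)
    (a : (ι → α) → SimpleGraph (Fin n)) (b : (ι → α → γ) → SimpleGraph (Fin n))
    (hab : ∀ x v w, (a x).Adj v w → ∃ J : Finset ι, J.card ≤ 2 ∧
      ∀ y, ¬ (b y).Adj v w → ¬ Set.InjOn (zz x y) J) (o : Fin s) :
    (nc (fun x => f o (a x)) : ℝ) ≤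
      (2 * (1 - nc (fun y => ¬ f o (b y)) / Fintype.card (ι → α → γ)) +
        1 / ((2 : ℝ) ^ u) ^ l) * Fintype.card (ι → α) := by
  classical
  rw [nc_eq, nc_eq]
  refine core2 hα hu hl hk hkl hq hs hN hε (fun i x => f i (a x)) (fun i y => ¬ f i (b y)) ?_ o
    (univ.filter fun x => f o (a x)) (univ.filter fun y => ¬ f o (b y))
    (fun x hx => (Finset.mem_filter.mp hx).2) (fun y hy => (Finset.mem_filter.mp hy).2)
  intro i
  rcases hf i with ⟨v, w, h⟩ | ⟨c, h⟩ | ⟨P, S, h1, h2, h3, h4⟩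
  · left
    intro x hx
    obtain ⟨J, hJ, hJ'⟩ := hab x v w ((h _).mp hx)
    exact ⟨J, hJ, fun y hy => hJ' y fun hy' => hy ((h _).mpr hy')⟩
  · left
    intro x hx
    exact ⟨∅, by simp, fun y hy => absurd ((h _).mpr ((h _).mp hx)) hy⟩
  · right
    exact (rel_of_program P S h3 (fun i x => f i (a x)) (fun i y => f i (b y)) i h2
      (fun x => h4 _) (fun y => h4 _)).mono (by omega)

end Pool.Agent.H58.AL
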