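import Pool.Agent.H58.AL.Induct
import Pool.Agent.H58.AL.Par2
import Pool.Agent.H58.LG.Main
import Pool.Agent.H4.MH.Nil

/-!
The base case: the clique function and its dual are hard for circuits with linear programming
gates, with a trade-off between the fractions of accepted cliques and of rejected colourings.
-/

set_option autoImplicit false
set_option linter.unusedSectionVars false

namespace Pool.Agent.H58.AL

open Finset
open Pool.Agent.H58.LG
open Pool.Agent.H25.NM (nc nc_eq nc_congr)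
open Pool.Agent.H25.NP (uni emb cliqueFree_uni)
open Pool.Agent.H4.MH (Tree Var Lin Quant half_pow_le ncard_eq_nc)

/-- circuits become families of graph properties -/
theorem exists_plain {n s R : ℕ} {ε : ℝ} (C : MCircuit (Sym2 (Fin n)) s R ε) :
    ∃ f : Fin (Fintype.card (Sym2 (Fin n)) + s) → SimpleGraph (Fin n) → Prop,
      (∀ i, Plain R (min ε 1) f i) ∧
      ∀ (j : Fin s) G, f (Fin.natAdd _ j) G ↔ C.fn j fun e => e ∈ G.edgeSet := by
  classical
  set N := Fintype.card (Sym2 (Fin n)) with hN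
  let e : Sym2 (Fin n) ≃ Fin N := Fintype.equivFin _
  let f : Fin (N + s) → SimpleGraph (Fin n) → Prop :=
    Fin.addCases (fun i G => e.symm i ∈ G.edgeSet) fun j G => C.fn j fun v => v ∈ G.edgeSet
  have f1 : ∀ (i : Fin N) G, f (Fin.castAdd s i) G ↔ e.symm i ∈ G.edgeSet := by
    intro i G
    show (Fin.addCases (motive := fun _ => SimpleGraph (Fin n) → Prop)
      (fun i G => e.symm i ∈ G.edgeSet) (fun j G => C.fn j fun v => v ∈ G.edgeSet)
      (Fin.castAdd s i)) G ↔ _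
    rw [Fin.addCases_left]
  have f2 : ∀ (j : Fin s) G, f (Fin.natAdd N j) G ↔ C.fn j fun v => v ∈ G.edgeSet := by
    intro j G
    show (Fin.addCases (motive := fun _ => SimpleGraph (Fin n) → Prop)
      (fun i G => e.symm i ∈ G.edgeSet) (fun j G => C.fn j fun v => v ∈ G.edgeSet)
      (Fin.natAdd N j)) G ↔ _
    rw [Fin.addCases_right]
  refine ⟨f, fun i => ?_, f2⟩
  refine Fin.addCases (fun i => ?_) (fun j => ?_) i
  · obtain ⟨u, v, huv⟩ : ∃ u v, e.symm i = s(u, v) := by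
      induction e.symm i using Sym2.ind with
      | _ u v => exact ⟨u, v, rfl⟩
    refine Or.inl ⟨u, v, fun G => ?_⟩
    rw [f1, huv, SimpleGraph.mem_edgeSet]
  · obtain ⟨S, T, hT, h1⟩ := C.gate j
    -- the gates read by an AND or an OR
    let A : Finset (Fin (N + s)) := (univ.filter fun v : Sym2 (Fin n) => v ∈ S).map
      (e.toEmbedding.trans (Fin.castAddEmb s)) ∪ T.map (Fin.natAddEmb N)
    have hA : ∀ a ∈ A, a < Fin.natAdd N j := by
      intro a ha
      rcases Finset.mem_union.1 ha with ha | ha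
      · obtain ⟨v, _, rfl⟩ := Finset.mem_map.1 ha
        show (e v).1 < N + j.1
        have := (e v).2
        omega
      · obtain ⟨a', ha', rfl⟩ := Finset.mem_map.1 ha
        have h2 : a'.1 < j.1 := hT a' ha'
        show N + a'.1 < N + j.1
        omega
    have hAv : ∀ (G : SimpleGraph (Fin n)) (v : Sym2 (Fin n)),
        f (Fin.castAdd s (e v)) G ↔ v ∈ G.edgeSet := by
      intro G v
      rw [f1, Equiv.symm_apply_apply]
    rcases h1 with h1 | h1 | ⟨P, h2, h3, h1⟩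
    · obtain ⟨P, g1, g2, g3⟩ := exists_and A
      refine Or.inr (Or.inr ⟨P, A, by omega, hA, g2.mono (min_le_right _ _), fun G => ?_⟩)
      rw [f2, h1, g3]
      constructor
      · rintro ⟨k1, k2⟩ a ha
        rcases Finset.mem_union.1 ha with ha | ha
        · obtain ⟨v, hv, rfl⟩ := Finset.mem_map.1 ha
          exact (hAv G v).2 (k1 v (Finset.mem_filter.1 hv).2)
        · obtain ⟨a', ha', rfl⟩ := Finset.mem_map.1 ha
          exact (f2 a' G).2 (k2 a' ha')
      · intro k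
        refine ⟨fun v hv => (hAv G v).1 (k _ (Finset.mem_union_left _
          (Finset.mem_map_of_mem _ (Finset.mem_filter.2 ⟨Finset.mem_univ _, hv⟩)))),
          fun a ha => (f2 a G).1 (k _ (Finset.mem_union_right _
            (Finset.mem_map_of_mem _ ha)))⟩
    · obtain ⟨P, g1, g2, g3⟩ := exists_or A
      refine Or.inr (Or.inr ⟨P, A, by omega, hA, g2.mono (min_le_right _ _), fun G => ?_⟩)
      rw [f2, h1, g3]
      constructor
      · rintro (⟨v, hv, h2⟩ | ⟨a, ha, h2⟩)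
        · exact ⟨_, Finset.mem_union_left _ (Finset.mem_map_of_mem _
            (Finset.mem_filter.2 ⟨Finset.mem_univ _, hv⟩)), (hAv G v).2 h2⟩
        · exact ⟨_, Finset.mem_union_right _ (Finset.mem_map_of_mem _ ha), (f2 a G).2 h2⟩
      · rintro ⟨a, ha, h2⟩
        rcases Finset.mem_union.1 ha with ha | ha
        · obtain ⟨v, hv, rfl⟩ := Finset.mem_map.1 ha
          exact Or.inl ⟨v, (Finset.mem_filter.1 hv).2, (hAv G v).1 h2⟩
        · obtain ⟨a', ha', rfl⟩ := Finset.mem_map.1 ha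
          exact Or.inr ⟨a', ha', (f2 a' G).1 h2⟩
    · refine Or.inr (Or.inr ⟨P.map (Fin.natAddEmb N), T.map (Fin.natAddEmb N), h2, ?_,
        (h3.map _).mono (min_le_left _ _), fun G => ?_⟩)
      · intro a ha
        obtain ⟨a', ha', rfl⟩ := Finset.mem_map.1 ha
        have h4 : a'.1 < j.1 := hT a' ha'
        show N + a'.1 < N + j.1
        omega
      · rw [f2, h1, Program.map_accepts]
        exact Program.accepts_congr fun a _ => (f2 a G).symm

theorem card_sym2_le' (n : ℕ) : 2 * Fintype.card (Sym2 (Fin n)) = n * (n + 1) := by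
  rw [Sym2.card, Fintype.card_fin, Nat.choose_two_right, Nat.add_sub_cancel]
  have h := Nat.even_mul_succ_self n
  obtain ⟨c, hc⟩ := h
  have h1 : (n + 1) * n = c + c := by rw [mul_comm]; exact hc
  rw [h1]
  omega

/-- complete multipartite graphs have no large cliques -/
theorem mp_cliqueFree {k m n q : ℕ} (φ : Fin k × Fin m ↪ Fin n) (hqk : q < k) (hm : 0 < m)
    (y : Fin k → Fin m → Fin q) : ((mp y).map φ).CliqueFree k := by
  have : Nonempty (Fin k × Fin m) := ⟨(⟨0, by omega⟩, ⟨0, hm⟩)⟩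
  rw [SimpleGraph.cliqueFree_map_iff]
  refine SimpleGraph.Colorable.cliqueFree (n := q) ?_ hqk
  exact ⟨SimpleGraph.Coloring.mk (fun v => y v.1 v.2) fun {v w} h => h⟩

/-- The counting core of the base case. -/
theorem base_core {n l k : ℕ} (hl : 1 ≤ l) (hnl : n < 2 ^ l) (hk1 : 10 * l ≤ k)
    (hk2 : 2 * k ≤ n) (hln : (100 * l) ^ 11 ≤ n) :
    ∃ (P Ω : Type) (_ : Fintype P) (_ : Fintype Ω) (_ : Nonempty P) (_ : Nonempty Ω)
      (A : P → SimpleGraph (Fin n)) (B : Ω → SimpleGraph (Fin n)),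
      (∀ p, ¬ (A p).CliqueFree k) ∧ (∀ ω, (B ω).CliqueFree k) ∧
      ∀ (s R : ℕ) (ε : ℝ) (C : MCircuit (Sym2 (Fin n)) s R ε) (out : Fin s), s ≤ 2 ^ l →
        R ≤ 2 ^ (l + 3) → 1 ≤ ε * 2 ^ l →
        (nc (fun p => C.fn out fun e => e ∈ (A p).edgeSet) : ℝ) ≤
          (2 * (1 - nc (fun ω => ¬ C.fn out fun e => e ∈ (B ω).edgeSet) / Fintype.card Ω) +
            (1 / 2) ^ l) * Fintype.card P := by
  classical
  -- l is large
  have hlbig : 73 ≤ l := by
    by_contra hcon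
    push Not at hcon
    have h1 : 2 ^ l ≤ 2 ^ 72 := Nat.pow_le_pow_right (by norm_num) (by omega)
    have h2 : 100 ^ 11 ≤ (100 * l) ^ 11 := Nat.pow_le_pow_left (by omega) _
    norm_num at h1 h2
    omega
  obtain ⟨lam, hlam1, hlam2⟩ : ∃ lam, 2 * l + 1 ≤ 10 * lam ∧ 10 * lam ≤ 2 * l + 11 :=
    ⟨(2 * l + 1) / 10 + 1, by omega, by omega⟩
  obtain ⟨q, hq⟩ : ∃ q, q = 40 * lam + 20 := ⟨_, rfl⟩
  obtain ⟨k₀, hk₀⟩ : ∃ k₀, k₀ = 10 * l := ⟨_, rfl⟩
  have hqk : q < k₀ := by omega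
  -- the power of two
  obtain ⟨u, hu1, hu2⟩ : ∃ u, 50 * l ≤ 2 ^ u ∧ 2 ^ u ≤ 100 * l := by
    refine ⟨Nat.clog 2 (50 * l), Nat.le_pow_clog (by norm_num) _, ?_⟩
    have h1 := Nat.pow_pred_clog_lt_self (b := 2) (by norm_num) (x := 50 * l) (by omega)
    have h2 : 0 < Nat.clog 2 (50 * l) := Nat.clog_pos (by norm_num) (by omega)
    obtain ⟨c, hc⟩ : ∃ c, Nat.clog 2 (50 * l) = c + 1 := ⟨Nat.clog 2 (50 * l) - 1, by omega⟩
    rw [hc] at h1 ⊢
    have h3 : 2 ^ c < 50 * l := by simpa using h1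
    rw [pow_succ]
    omega
  have hu10 : 10 ≤ u := by
    by_contra hcon
    push Not at hcon
    have : 2 ^ u ≤ 2 ^ 9 := Nat.pow_le_pow_right (by norm_num) (by omega)
    omega
  obtain ⟨m, hm⟩ : ∃ m, m = 2 ^ (10 * u) := ⟨_, rfl⟩
  have hm0 : 0 < m := by
    rw [hm]
    positivity
  have hmX : m ≤ (100 * l) ^ 10 := by
    rw [hm, mul_comm, pow_mul]
    exact Nat.pow_le_pow_left hu2 _
  set n₀ : ℕ := n - (k - k₀) with hn₀
  have hn₀n : n₀ ≤ n := Nat.sub_le _ _
  have hn₀2 : n ≤ 2 * n₀ := by omega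
  have hkk : k = k₀ + (n - n₀) := by omega
  have hv : k₀ * m ≤ n₀ := by
    have h1 : 10 * (k₀ * m) ≤ (100 * l) ^ 11 := by
      rw [hk₀]
      calc 10 * (10 * l * m) = (100 * l) * m := by ring
        _ ≤ (100 * l) * (100 * l) ^ 10 := Nat.mul_le_mul_left _ hmX
        _ = (100 * l) ^ 11 := by ring
    omega
  obtain ⟨φ⟩ : Nonempty (Fin k₀ × Fin m ↪ Fin n₀) := by
    rw [Function.Embedding.nonempty_iff_card_le, Fintype.card_prod, Fintype.card_fin,
      Fintype.card_fin, Fintype.card_fin]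
    exact hv
  have hq0 : Nonempty (Fin q) := ⟨⟨0, by omega⟩⟩
  have hm0' : Nonempty (Fin m) := ⟨⟨0, hm0⟩⟩
  refine ⟨Fin k₀ → Fin m, Fin k₀ → Fin m → Fin q, inferInstance, inferInstance, inferInstance,
    inferInstance, fun x => uni n n₀ ⊔ ((tq x).map φ).map (emb hn₀n),
    fun y => uni n n₀ ⊔ ((mp y).map φ).map (emb hn₀n), fun x => ?_, fun y => ?_, ?_⟩
  · rw [hkk, cliqueFree_uni]
    have h1 := tq_not_cliqueFree φ x ⊥
    rwa [bot_sup_eq] at h1
  · by_contra hcon
    rw [hkk, cliqueFree_uni] at hcon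
    exact hcon (mp_cliqueFree φ hqk hm0 y)
  · intro s R ε C out hs hR hε
    have hN := card_sym2_le' n
    set N := Fintype.card (Sym2 (Fin n)) with hNdef
    obtain ⟨f, hf1, hf2⟩ : ∃ f : Fin (N + s) → SimpleGraph (Fin n) → Prop,
      (∀ i, Plain R (min ε 1) f i) ∧
      ∀ (j : Fin s) G, f (Fin.natAdd N j) G ↔ C.fn j fun e => e ∈ G.edgeSet := exists_plain C
    have h2l : 1 ≤ 2 ^ l := Nat.one_le_two_pow
    have hN2 : 2 * N ≤ 2 ^ (2 * l) := by
      rw [hN, two_mul, pow_add]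
      exact Nat.mul_le_mul hnl.le hnl
    have hbig : 2 ^ (2 * l + 1) ≤ (2 ^ u) ^ lam := by
      rw [← pow_mul]
      refine Nat.pow_le_pow_right (by norm_num) ?_
      calc 2 * l + 1 ≤ 10 * lam := hlam1
        _ ≤ u * lam := Nat.mul_le_mul_right _ hu10
    have h16 : 2 ^ 4 * 2 ^ l ≤ 2 ^ (2 * l) := by
      rw [← pow_add]
      exact Nat.pow_le_pow_right (by norm_num) (by omega)
    have h22 : 2 ^ (2 * l + 1) = 2 * 2 ^ (2 * l) := by ring
    have h23 : 2 ^ (l + 3) = 8 * 2 ^ l := by ring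
    have hsz : N + s ≤ (2 ^ u) ^ lam := by omega
    have hRz : R + 1 + 2 * (N + s) ≤ (2 ^ u) ^ lam := by omega
    have hzl : (2 : ℝ) ^ l ≤ ((2 : ℝ) ^ u) ^ lam := by
      have : 2 ^ l ≤ (2 ^ u) ^ lam := by omega
      exact_mod_cast this
    have hεz : (1 : ℝ) ≤ min ε 1 * ((2 : ℝ) ^ u) ^ lam := by
      have h1 : (1 : ℝ) ≤ 2 ^ l := by exact_mod_cast h2l
      rcases min_cases ε 1 with h | h
      · rw [h.1]
        have h3 : 0 ≤ ε := by
          by_contra hcon
          push Not at hcon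
          have : ε * 2 ^ l ≤ 0 := mul_nonpos_of_nonpos_of_nonneg hcon.le (by positivity)
          linarith
        exact hε.trans (mul_le_mul_of_nonneg_left hzl h3)
      · rw [h.1, one_mul]
        linarith
    have hmain := block2 (ι := Fin k₀) (α := Fin m) (γ := Fin q) (u := u) (l := lam)
      (R := R) (ε := min ε 1) f hf1 (by rw [Fintype.card_fin, hm]) hu10 (by omega)
      (by rw [Fintype.card_fin]; omega) (by rw [Fintype.card_fin]; omega)
      (by rw [Fintype.card_fin]; omega) hsz hRz hεz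
      (fun x => uni n n₀ ⊔ ((tq x).map φ).map (emb hn₀n))
      (fun y => uni n n₀ ⊔ ((mp y).map φ).map (emb hn₀n)) ?_ (Fin.natAdd N out)
    · have e1 : nc (fun x : Fin k₀ → Fin m => f (Fin.natAdd N out)
          (uni n n₀ ⊔ ((tq x).map φ).map (emb hn₀n))) =
          nc (fun x : Fin k₀ → Fin m => C.fn out fun e =>
            e ∈ (uni n n₀ ⊔ ((tq x).map φ).map (emb hn₀n)).edgeSet) :=
        nc_congr fun x => hf2 out _
      have e2 : nc (fun y : Fin k₀ → Fin m → Fin q => ¬ f (Fin.natAdd N out)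
          (uni n n₀ ⊔ ((mp y).map φ).map (emb hn₀n))) =
          nc (fun y : Fin k₀ → Fin m → Fin q => ¬ C.fn out fun e =>
            e ∈ (uni n n₀ ⊔ ((mp y).map φ).map (emb hn₀n)).edgeSet) :=
        nc_congr fun y => not_congr (hf2 out _)
      rw [e1, e2] at hmain
      refine hmain.trans (mul_le_mul_of_nonneg_right ?_ (Nat.cast_nonneg _))
      have e3 : 1 / ((2 : ℝ) ^ u) ^ lam ≤ (1 / 2) ^ l := by
        rw [one_div_pow]
        exact one_div_le_one_div_of_le (by positivity) hzl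
      linarith
    · intro x v w hvw
      rw [SimpleGraph.sup_adj] at hvw
      rcases hvw with hvw | hvw
      · exact ⟨∅, by simp, fun y hy => absurd (Or.inl hvw) hy⟩
      · rw [SimpleGraph.map_adj] at hvw
        obtain ⟨v', w', hvw', rfl, rfl⟩ := hvw
        rw [SimpleGraph.map_adj] at hvw'
        obtain ⟨a, b, hab, rfl, rfl⟩ := hvw'
        obtain ⟨h1, h2, h3⟩ := hab
        have hne : a.1 ≠ b.1 := by
          intro h
          refine h1 (Prod.ext h ?_)
          rw [h2, h3, h]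
        refine ⟨{a.1, b.1}, Finset.card_le_two, fun y hy hinj => ?_⟩
        refine hne (hinj (by simp) (by simp) ?_)
        by_contra hz
        refine hy (Or.inr ?_)
        rw [SimpleGraph.map_adj]
        refine ⟨φ a, φ b, ?_, rfl, rfl⟩
        rw [SimpleGraph.map_adj]
        refine ⟨a, b, ?_, rfl, rfl⟩
        show y a.1 a.2 ≠ y b.1 b.2
        rw [h2, h3]
        exact hz

theorem hard_nil_false {n l k R : ℕ} {ε : ℝ} (hl : 1 ≤ l) (hnl : n < 2 ^ l)
    (hk1 : 10 * l ≤ k) (hk2 : 2 * k ≤ n) (hln : (100 * l) ^ 11 ≤ n) (hR : R ≤ 2 ^ l)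
    (hε : 1 ≤ ε * 2 ^ l) : Hard n k l R ε false [] := by
  obtain ⟨P, Ω, i1, i2, i3, i4, A, B, hA, hB, hh⟩ := base_core hl hnl hk1 hk2 hln
  refine ⟨P, Ω, i1, i2, i3, i4, fun p => fun e => e ∈ (A p).edgeSet,
    fun ω => fun e => e ∈ (B ω).edgeSet, ?_, ?_, ?_⟩
  · intro p
    have h1 := hA p
    unfold SimpleGraph.CliqueFree at h1
    push Not at h1
    obtain ⟨U, hU⟩ := h1
    refine ⟨U, hU.card_eq, fun u hu v hv huv => ?_⟩
    exact hU.isClique (Finset.mem_coe.2 hu) (Finset.mem_coe.2 hv) huv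
  · rintro ω ⟨U, hU, hadj⟩
    refine hB ω U ⟨fun u hu v hv huv => ?_, hU⟩
    exact hadj u (Finset.mem_coe.1 hu) v (Finset.mem_coe.1 hv) huv
  · rintro s c qs f hs hc1 hc2 hqs hf
    cases hqs
    obtain ⟨C, out, hC⟩ : ∃ (C : MCircuit (Sym2 (Fin n)) s R ε) (out : Fin s),
      ∀ x, f x ↔ C.fn out x := hf
    have h3 : nc (fun p => f fun e => e ∈ (A p).edgeSet) =
        nc (fun p => C.fn out fun e => e ∈ (A p).edgeSet) :=
      nc_congr fun p => hC fun e => e ∈ (A p).edgeSet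
    have h4 : nc (fun ω => ¬ f fun e => e ∈ (B ω).edgeSet) =
        nc (fun ω => ¬ C.fn out fun e => e ∈ (B ω).edgeSet) :=
      nc_congr fun ω => not_congr (hC fun e => e ∈ (B ω).edgeSet)
    show (nc (fun p => f fun e => e ∈ (A p).edgeSet) : ℝ) ≤
      (2 * (1 - nc (fun ω => ¬ f fun e => e ∈ (B ω).edgeSet) / Fintype.card Ω) + (1 / 2) ^ c) *
        Fintype.card P
    rw [h3, h4]
    refine (hh s R ε C out hs (hR.trans (Nat.pow_le_pow_right (by norm_num) (by omega))) hε).trans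
      (mul_le_mul_of_nonneg_right ?_ (Nat.cast_nonneg _))
    have := half_pow_le hc2
    linarith

theorem hard_nil_true {n l k R : ℕ} {ε : ℝ} (hl : 1 ≤ l) (hnl : n < 2 ^ l)
    (hk1 : 10 * l ≤ k) (hk2 : 2 * k ≤ n) (hln : (100 * l) ^ 11 ≤ n) (hR : R ≤ 2 ^ l)
    (hε : 1 ≤ ε * 2 ^ l) : Hard n k l R ε true [] := by
  have hε0 : 0 < ε := by
    by_contra hcon
    push Not at hcon
    have : ε * 2 ^ l ≤ 0 := mul_nonpos_of_nonpos_of_nonneg hcon (by positivity)
    linarith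
  obtain ⟨P, Ω, i1, i2, i3, i4, A, B, hA, hB, hh⟩ := base_core hl hnl hk1 hk2 hln
  refine ⟨Ω, P, i2, i1, i4, i3, fun ω => fun e => ¬ e ∈ (B ω).edgeSet,
    fun p => fun e => ¬ e ∈ (A p).edgeSet, ?_, ?_, ?_⟩
  · intro ω U hU
    by_contra hcon
    push Not at hcon
    refine hB ω U ⟨fun u hu v hv huv => ?_, hU⟩
    have h1 := hcon u (Finset.mem_coe.1 hu) v (Finset.mem_coe.1 hv) huv
    exact h1
  · intro p hT
    have h1 := hA p
    unfold SimpleGraph.CliqueFree at h1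
    push Not at h1
    obtain ⟨U, hU⟩ := h1
    obtain ⟨u, hu, v, hv, huv, h2⟩ := hT U hU.card_eq
    exact h2 (hU.isClique (Finset.mem_coe.2 hu) (Finset.mem_coe.2 hv) huv)
  · rintro s c qs f hs hc1 hc2 hqs hf
    cases hqs
    obtain ⟨C, out, hC⟩ : ∃ (C : MCircuit (Sym2 (Fin n)) s R ε) (out : Fin s),
      ∀ x, f x ↔ C.fn out x := hf
    have h3 : nc (fun p => ¬ f fun e => ¬ e ∈ (A p).edgeSet) =
        nc (fun p => (C.dual hε0).fn out fun e => e ∈ (A p).edgeSet) :=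
      nc_congr fun p => not_congr (hC fun e => ¬ e ∈ (A p).edgeSet)
    have h4 : nc (fun ω => f fun e => ¬ e ∈ (B ω).edgeSet) =
        nc (fun ω => ¬ (C.dual hε0).fn out fun e => e ∈ (B ω).edgeSet) :=
      nc_congr fun ω => (hC fun e => ¬ e ∈ (B ω).edgeSet).trans not_not.symm
    show (nc (fun p => ¬ f fun e => ¬ e ∈ (A p).edgeSet) : ℝ) ≤
      (2 * (1 - nc (fun ω => f fun e => ¬ e ∈ (B ω).edgeSet) / Fintype.card Ω) + (1 / 2) ^ c) *
        Fintype.card P
    rw [h3, h4]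
    have h2l : 1 ≤ 2 ^ l := Nat.one_le_two_pow
    have h23 : 2 ^ (l + 3) = 8 * 2 ^ l := by ring
    refine (hh s (R + 3 * s + 1) ε (C.dual hε0) out hs (by omega) hε).trans
      (mul_le_mul_of_nonneg_right ?_ (Nat.cast_nonneg _))
    have := half_pow_le hc2
    linarith

/-- **The lower bound, on average.** -/
theorem lower_avg {n l k R : ℕ} {ε : ℝ} (hl : 1 ≤ l) (hnl : n < 2 ^ l)
    (hk1 : 10 * l ≤ k) (hk2 : 2 * k ≤ n) (hln : (100 * l) ^ 11 ≤ n) (hR : R ≤ 2 ^ l)
    (hε : 1 ≤ ε * 2 ^ l) (b : Bool) (m : ℕ) (ms : List ℕ) (hm : ∀ a ∈ m :: ms, 0 < a) :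
    ∃ (r u : ℕ) (pos : Fin r → Var n (m :: ms) → Prop) (neg : Fin u → Var n (m :: ms) → Prop),
      (∀ i, Tree n k b (m :: ms) (pos i)) ∧ (∀ j, ¬ Tree n k b (m :: ms) (neg j)) ∧
      ∀ (s a q : ℕ) (qs : List ℕ) (C : List Bool → MCircuit (Var n (m :: ms)) s R ε)
        (out : List Bool → Fin s), s ≤ 2 ^ l → a + 2 ≤ l → 2 ^ (a + 1) * (q + a + 1) ≤ m →
        List.Forall₂ (fun m q => 6 * (q + a + 2) ≤ m) ms qs →
        2 ^ a * {i | Quant (!b) (q :: qs) fun y => (C y).fn (out y) (pos i)}.ncard < r ∨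
        2 ^ a * {j | ¬ Quant (!b) (q :: qs) fun y => (C y).fn (out y) (neg j)}.ncard < u := by
  have hl2 : 2 ≤ l := by
    by_contra hcon
    have h1 : l = 1 := by omega
    subst h1
    norm_num at hnl hln
    omega
  have h0 : ∀ b, Hard n k l R ε b [] := by
    intro b
    cases b with
    | true => exact hard_nil_true hl hnl hk1 hk2 hln hR hε
    | false => exact hard_nil_false hl hnl hk1 hk2 hln hR hε
  obtain ⟨P, Ω, _, _, _, _, pos, neg, hpos, hneg, hh⟩ := top b (hm m List.mem_cons_self)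
    (hard_all hl2 h0 ms (!b) fun a ha => hm a (List.mem_cons_of_mem _ ha))
  refine ⟨Fintype.card P, Fintype.card Ω, fun i => pos ((Fintype.equivFin P).symm i),
    fun i => neg ((Fintype.equivFin Ω).symm i), fun i => hpos _, fun i => hneg _, ?_⟩
  intro s a q qs C out hs ha hq hqs
  by_contra hcon
  push Not at hcon
  refine hh s a q qs (fun x => Quant (!b) (q :: qs) fun y => (C y).fn (out y) x) hs ha hq hqs
    (alt_of_quant _ _ _ _) ⟨?_, ?_⟩
  · have h1 := hcon.1
    rw [ncard_eq_nc (Fintype.equivFin P).symm fun p =>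
      Quant (!b) (q :: qs) fun y => (C y).fn (out y) (pos p)] at h1
    exact h1
  · have h1 := hcon.2
    rw [ncard_eq_nc (Fintype.equivFin Ω).symm fun ω =>
      ¬ Quant (!b) (q :: qs) fun y => (C y).fn (out y) (neg ω)] at h1
    exact h1

/-- the lower bound -/
theorem lower_form {n l k : ℕ} (hl : 1 ≤ l) (hnl : n < 2 ^ l)
    (hk1 : 10 * l ≤ k) (hk2 : 2 * k ≤ n) (hln : (100 * l) ^ 11 ≤ n) (b : Bool) (ms : List ℕ)
    (h : ms ≠ []) (hms : ∀ m ∈ ms, 0 < m) :
    ∃ (r u : ℕ) (pos : Fin r → Var n ms → Prop) (neg : Fin u → Var n ms → Prop),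
      (∀ i, Tree n k b ms (pos i)) ∧ (∀ j, ¬ Tree n k b ms (neg j)) ∧
      ∀ (s d a : ℕ) (qs : List ℕ) (C : List Bool → LPCircuit (Var n ms) s (2 ^ l) d (1 / 2 ^ l))
        (out : List Bool → Fin s), (s + 1) ^ (d + 1) ≤ 2 ^ l → a + 2 ≤ l →
        List.Forall₂ (fun m q => 6 * (q + a + 2) ≤ m) ms qs →
        2 ^ (a + 1) * (qs.headI + a + 1) ≤ ms.headI →
        2 ^ a * {i | Quant (!b) qs fun y => (C y).fn (out y) (pos i)}.ncard < r ∨
        2 ^ a * {j | ¬ Quant (!b) qs fun y => (C y).fn (out y) (neg j)}.ncard < u := by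
  rcases ms with _ | ⟨m, ms⟩
  · exact absurd rfl h
  · have hε : (1 : ℝ) ≤ 1 / 2 ^ l * 2 ^ l := by
      rw [one_div_mul_cancel (by positivity)]
    have hε1 : (1 : ℝ) / 2 ^ l ≤ 1 := by
      rw [div_le_one (by positivity)]
      exact one_le_pow₀ (by norm_num)
    obtain ⟨r, u, pos, neg, h1, h2, h3⟩ := lower_avg hl hnl hk1 hk2 hln le_rfl hε b m ms hms
    refine ⟨r, u, pos, neg, h1, h2, ?_⟩
    intro s d a qs C out hs ha hqs hq
    have hs' : s ≤ 2 ^ l := by
      calc s ≤ (s + 1) ^ 1 := by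
            rw [pow_one]
            omega
        _ ≤ (s + 1) ^ (d + 1) := Nat.pow_le_pow_right (by omega) (by omega)
        _ ≤ 2 ^ l := hs
    cases hqs with
    | @cons _ q _ qs _ hqs =>
      exact h3 s a q qs (fun y => (C y).toM hs hε1) out hs' ha hq hqs

end Pool.Agent.H58.AL
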