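import Pool.Agent.H58.LG.Gate
import Pool.Agent.H58.LG.Prog

/-! The dual of a linear programming gate is a linear programming gate. -/

set_option autoImplicit false
set_option linter.unusedSectionVars false

namespace Pool.Agent.H58.AL

open Finset
open Pool.Agent.H58.LG

/-- programmes with unknowns and inequalities indexed by any finite types -/
theorem exists_program {T D I : Type} [Fintype D] [Fintype I] (E : AffineSubspace ℝ (D → ℝ))
    (ineq : I → (D → ℝ) →ᵃ[ℝ] ℝ) (wire : T → (D → ℝ) →ᵃ[ℝ] ℝ) :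
    ∃ P : Program T, P.num = Fintype.card I ∧
      (∀ (S : Finset T) (v : T → Prop), P.Accepts S v ↔
        ∃ p : D → ℝ, (p ∈ E ∧ ∀ i, 0 ≤ ineq i p) ∧ ∀ j ∈ S, wire j p ≤ bit (v j)) ∧
      ∀ (S : Finset T) (ε : ℝ), (∀ v : T → Prop, (¬ ∃ p : D → ℝ, (p ∈ E ∧ ∀ i, 0 ≤ ineq i p) ∧
        ∀ j ∈ S, wire j p ≤ bit (v j)) → ∀ p : D → ℝ, p ∈ E → (∀ i, 0 ≤ ineq i p) →
          ε ≤ ∑ j ∈ S, max (wire j p - bit (v j)) 0) → P.Margin S ε := by
  classical
  obtain ⟨φ⟩ : Nonempty ((Fin (Fintype.card D) → ℝ) ≃ₗ[ℝ] (D → ℝ)) :=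
    ⟨LinearEquiv.funCongrLeft ℝ ℝ (Fintype.equivFin D)⟩
  let φ' : (Fin (Fintype.card D) → ℝ) →ᵃ[ℝ] (D → ℝ) := φ.toLinearMap.toAffineMap
  let P : Program T :=
    { dim := Fintype.card D
      num := Fintype.card I
      eqs := E.comap φ'
      ineq := fun r => (ineq ((Fintype.equivFin I).symm r)).comp φ'
      wire := fun j => (wire j).comp φ' }
  have hfeas : ∀ p, P.Feasible p ↔ (φ p ∈ E ∧ ∀ i, 0 ≤ ineq i (φ p)) := by
    intro p
    constructor
    · rintro ⟨h1, h2⟩
      refine ⟨h1, fun i => ?_⟩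
      have h3 : 0 ≤ ineq ((Fintype.equivFin I).symm (Fintype.equivFin I i)) (φ p) :=
        h2 (Fintype.equivFin I i)
      rwa [Equiv.symm_apply_apply] at h3
    · rintro ⟨h1, h2⟩
      exact ⟨h1, fun r => h2 _⟩
  have hacc : ∀ (S : Finset T) (v : T → Prop), P.Accepts S v ↔
      ∃ p : D → ℝ, (p ∈ E ∧ ∀ i, 0 ≤ ineq i p) ∧ ∀ j ∈ S, wire j p ≤ bit (v j) := by
    intro S v
    constructor
    · rintro ⟨p, h1, h2⟩
      exact ⟨φ p, (hfeas p).mp h1, h2⟩
    · rintro ⟨p, h1, h2⟩
      refine ⟨φ.symm p, (hfeas _).mpr ?_, fun j hj => ?_⟩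
      · rw [LinearEquiv.apply_symm_apply]
        exact h1
      · have h3 : wire j (φ (φ.symm p)) ≤ bit (v j) := by
          rw [LinearEquiv.apply_symm_apply]
          exact h2 j hj
        exact h3
  refine ⟨P, rfl, hacc, fun S ε h v hv p hp => ?_⟩
  rw [hacc] at hv
  obtain ⟨h1, h2⟩ := (hfeas p).mp hp
  exact h v hv (φ p) h1 h2

/-- **The dual of a linear programme.** -/
theorem exists_dual {s : ℕ} (P : Program (Fin s)) (S : Finset (Fin s)) {ε : ℝ} (hε : 0 < ε)
    (hP : P.Margin S ε) :
    ∃ P' : Program (Fin s), P'.num ≤ P.num + 3 * s + 1 ∧ P'.Margin S ε ∧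
      ∀ v, P'.Accepts S v ↔ ¬ P.Accepts S fun j => ¬ v j := by
  classical
  by_cases hne : ∃ p, P.Feasible p
  · obtain ⟨p0, hp0⟩ := hne
    let D : Type := Fin s ⊕ (Fin s ⊕ Fin P.num)
    let I : Type := Fin P.num ⊕ (Fin s ⊕ (Fin s ⊕ (Fin s ⊕ Unit)))
    -- the value of the combination at a point of the subspace
    let Φ : (Fin P.dim → ℝ) → (D → ℝ) →ₗ[ℝ] ℝ := fun x =>
      (∑ j ∈ S, (P.wire j x - 1) • (LinearMap.proj (Sum.inl j) : (D → ℝ) →ₗ[ℝ] ℝ)) +
      (∑ j ∈ S, (LinearMap.proj (Sum.inr (Sum.inl j)) : (D → ℝ) →ₗ[ℝ] ℝ)) -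
      ∑ r, (P.ineq r x) • (LinearMap.proj (Sum.inr (Sum.inr r)) : (D → ℝ) →ₗ[ℝ] ℝ)
    have hΦ : ∀ x (p : D → ℝ), Φ x p = (∑ j ∈ S, (P.wire j x - 1) * p (Sum.inl j)) +
        (∑ j ∈ S, p (Sum.inr (Sum.inl j))) -
        ∑ r, P.ineq r x * p (Sum.inr (Sum.inr r)) := by
      intro x p
      show ((∑ j ∈ S, (P.wire j x - 1) • (LinearMap.proj (Sum.inl j) : (D → ℝ) →ₗ[ℝ] ℝ)) +
        (∑ j ∈ S, (LinearMap.proj (Sum.inr (Sum.inl j)) : (D → ℝ) →ₗ[ℝ] ℝ)) -
        ∑ r, (P.ineq r x) • (LinearMap.proj (Sum.inr (Sum.inr r)) : (D → ℝ) →ₗ[ℝ] ℝ)) p = _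
      rw [LinearMap.sub_apply, LinearMap.add_apply, LinearMap.sum_apply, LinearMap.sum_apply,
        LinearMap.sum_apply]
      rfl
    let E : AffineSubspace ℝ (D → ℝ) :=
      { carrier := {p | ∀ x ∈ P.eqs, Φ x p = Φ p0 p}
        smul_vsub_vadd_mem' := by
          intro c p1 p2 p3 h1 h2 h3 x hx
          rw [vsub_eq_sub, vadd_eq_add, map_add, map_smul, map_sub, map_add, map_smul, map_sub,
            h1 x hx, h2 x hx, h3 x hx] }
    have hE : ∀ p, p ∈ E ↔ ∀ x ∈ P.eqs, Φ x p = Φ p0 p := fun _ => Iff.rfl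
    let pr : D → (D → ℝ) →ᵃ[ℝ] ℝ := fun d =>
      (LinearMap.proj d : (D → ℝ) →ₗ[ℝ] ℝ).toAffineMap
    have hpr : ∀ d p, pr d p = p d := fun _ _ => rfl
    let iq : I → (D → ℝ) →ᵃ[ℝ] ℝ := fun i =>
      match i with
      | Sum.inl r => pr (Sum.inr (Sum.inr r))
      | Sum.inr (Sum.inl j) => pr (Sum.inl j)
      | Sum.inr (Sum.inr (Sum.inl j)) => AffineMap.const ℝ (D → ℝ) 1 - pr (Sum.inl j)
      | Sum.inr (Sum.inr (Sum.inr (Sum.inl j))) => pr (Sum.inl j) - pr (Sum.inr (Sum.inl j))
      | Sum.inr (Sum.inr (Sum.inr (Sum.inr _))) =>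
        (Φ p0).toAffineMap - AffineMap.const ℝ (D → ℝ) ε
    have hiq : ∀ p, (∀ i, 0 ≤ iq i p) ↔ (∀ r, 0 ≤ p (Sum.inr (Sum.inr r))) ∧
        (∀ j, 0 ≤ p (Sum.inl j)) ∧ (∀ j, p (Sum.inl j) ≤ 1) ∧
        (∀ j, p (Sum.inr (Sum.inl j)) ≤ p (Sum.inl j)) ∧ ε ≤ Φ p0 p := by
      intro p
      constructor
      · intro h
        refine ⟨fun r => h (Sum.inl r), fun j => h (Sum.inr (Sum.inl j)), fun j => ?_,
          fun j => ?_, ?_⟩
        · have h1 : 0 ≤ 1 - p (Sum.inl j) := h (Sum.inr (Sum.inr (Sum.inl j)))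
          linarith
        · have h1 : 0 ≤ p (Sum.inl j) - p (Sum.inr (Sum.inl j)) :=
            h (Sum.inr (Sum.inr (Sum.inr (Sum.inl j))))
          linarith
        · have h1 : 0 ≤ Φ p0 p - ε := h (Sum.inr (Sum.inr (Sum.inr (Sum.inr ()))))
          linarith
      · rintro ⟨h1, h2, h3, h4, h5⟩ (r | j | j | j | _)
        · exact h1 r
        · exact h2 j
        · show 0 ≤ 1 - p (Sum.inl j)
          linarith [h3 j]
        · show 0 ≤ p (Sum.inl j) - p (Sum.inr (Sum.inl j))
          linarith [h4 j]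
        · show 0 ≤ Φ p0 p - ε
          linarith
    obtain ⟨P', h1, h2, h3⟩ := exists_program (T := Fin s) E iq
      (fun j => pr (Sum.inr (Sum.inl j)))
    have hbitnot : ∀ Q : Prop, bit (¬ Q) = 1 - bit Q := by
      intro Q
      by_cases h : Q
      · rw [bit_true h, bit_false (not_not.mpr h), sub_self]
      · rw [bit_false h, bit_true h, sub_zero]
    -- a point of the programme and a point of the dual programme
    have key : ∀ (v : Fin s → Prop) (p : D → ℝ), p ∈ E → (∀ i, 0 ≤ iq i p) →
        P.Accepts S (fun j => ¬ v j) →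
        ε ≤ ∑ j ∈ S, max (p (Sum.inr (Sum.inl j)) - bit (v j)) 0 := by
      rintro v p hpE hpi ⟨x, ⟨hx1, hx2⟩, hx3⟩
      obtain ⟨g1, g2, g3, g4, g5⟩ := (hiq p).mp hpi
      have e1 := (hE p).mp hpE x hx1
      rw [← e1, hΦ] at g5
      refine g5.trans ?_
      have e2 : 0 ≤ ∑ r, P.ineq r x * p (Sum.inr (Sum.inr r)) :=
        Finset.sum_nonneg fun r _ => mul_nonneg (hx2 r) (g1 r)
      have e3 : (∑ j ∈ S, (P.wire j x - 1) * p (Sum.inl j)) +
          (∑ j ∈ S, p (Sum.inr (Sum.inl j))) ≤
          ∑ j ∈ S, max (p (Sum.inr (Sum.inl j)) - bit (v j)) 0 := by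
        rw [← Finset.sum_add_distrib]
        refine Finset.sum_le_sum fun j hj => ?_
        have e4 := hx3 j hj
        rw [hbitnot] at e4
        have e5 : (P.wire j x - 1) * p (Sum.inl j) ≤ - bit (v j) * p (Sum.inl j) :=
          mul_le_mul_of_nonneg_right (by linarith) (g2 j)
        by_cases hv : v j
        · rw [bit_true hv] at e5 ⊢
          have e6 := g4 j
          refine le_trans ?_ (le_max_right _ _)
          linarith
        · rw [bit_false hv] at e5 ⊢
          refine le_trans ?_ (le_max_left _ _)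
          linarith
      linarith
    refine ⟨P', ?_, h3 S ε ?_, fun v => ?_⟩
    · rw [h1]
      simp only [I, Fintype.card_sum, Fintype.card_fin, Fintype.card_unit]
      omega
    · intro v hv p hpE hpi
      refine key v p hpE hpi ?_
      by_contra hacc
      apply hv
      obtain ⟨w, c, c0, g1, g2, g3, g4, g5⟩ := dual P S hP hacc hp0
      refine ⟨fun d => match d with
        | Sum.inl j => w j
        | Sum.inr (Sum.inl j) => w j * bit (v j)
        | Sum.inr (Sum.inr r) => c r, ⟨?_, ?_⟩, fun j _ => ?_⟩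
      · rw [hE]
        have e1 : ∀ x ∈ P.eqs, Φ x (fun d => match d with
            | Sum.inl j => w j
            | Sum.inr (Sum.inl j) => w j * bit (v j)
            | Sum.inr (Sum.inr r) => c r) = ε + c0 := by
          intro x hx
          rw [hΦ]
          have e2 := g5 x hx
          have e3 : ∑ j ∈ S, w j * (P.wire j x - bit (¬ v j)) =
              (∑ j ∈ S, (P.wire j x - 1) * w j) + ∑ j ∈ S, w j * bit (v j) := by
            rw [← Finset.sum_add_distrib]
            refine Finset.sum_congr rfl fun j _ => ?_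
            rw [hbitnot]
            ring
          have e4 : ∑ r, P.ineq r x * c r = ∑ r, c r * P.ineq r x :=
            Finset.sum_congr rfl fun r _ => mul_comm _ _
          simp only
          rw [e3] at e2
          rw [e4]
          linarith
        intro x hx
        rw [e1 x hx, e1 p0 hp0.1]
      · rw [hiq]
        refine ⟨g3, fun j => (g1 j).1, fun j => (g1 j).2, fun j => ?_, ?_⟩
        · show w j * bit (v j) ≤ w j
          have e1 : bit (v j) ≤ 1 := by
            by_cases hv : v j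
            · rw [bit_true hv]
            · rw [bit_false hv]
              norm_num
          have := mul_le_mul_of_nonneg_left e1 (g1 j).1
          linarith
        · rw [hΦ]
          have e2 := g5 p0 hp0.1
          have e3 : ∑ j ∈ S, w j * (P.wire j p0 - bit (¬ v j)) =
              (∑ j ∈ S, (P.wire j p0 - 1) * w j) + ∑ j ∈ S, w j * bit (v j) := by
            rw [← Finset.sum_add_distrib]
            refine Finset.sum_congr rfl fun j _ => ?_
            rw [hbitnot]
            ring
          have e4 : ∑ r, P.ineq r p0 * c r = ∑ r, c r * P.ineq r p0 :=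
            Finset.sum_congr rfl fun r _ => mul_comm _ _
          simp only
          rw [e3] at e2
          rw [e4]
          linarith
      · show w j * bit (v j) ≤ bit (v j)
        have := mul_le_mul_of_nonneg_right (g1 j).2 (bit_nonneg (v j))
        linarith
    · rw [h2]
      constructor
      · rintro ⟨p, ⟨hpE, hpi⟩, hw⟩ hacc
        have e1 := key v p hpE hpi hacc
        have e2 : ∑ j ∈ S, max (p (Sum.inr (Sum.inl j)) - bit (v j)) 0 ≤ 0 := by
          refine Finset.sum_nonpos fun j hj => ?_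
          have e3 : p (Sum.inr (Sum.inl j)) ≤ bit (v j) := hw j hj
          exact max_le (by linarith) le_rfl
        linarith
      · intro hacc
        by_contra hcon
        obtain ⟨w, c, c0, g1, g2, g3, g4, g5⟩ := dual P S hP hacc hp0
        apply hcon
        refine ⟨fun d => match d with
          | Sum.inl j => w j
          | Sum.inr (Sum.inl j) => w j * bit (v j)
          | Sum.inr (Sum.inr r) => c r, ⟨?_, ?_⟩, fun j _ => ?_⟩
        · rw [hE]
          have e1 : ∀ x ∈ P.eqs, Φ x (fun d => match d with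
              | Sum.inl j => w j
              | Sum.inr (Sum.inl j) => w j * bit (v j)
              | Sum.inr (Sum.inr r) => c r) = ε + c0 := by
            intro x hx
            rw [hΦ]
            have e2 := g5 x hx
            have e3 : ∑ j ∈ S, w j * (P.wire j x - bit (¬ v j)) =
                (∑ j ∈ S, (P.wire j x - 1) * w j) + ∑ j ∈ S, w j * bit (v j) := by
              rw [← Finset.sum_add_distrib]
              refine Finset.sum_congr rfl fun j _ => ?_
              rw [hbitnot]
              ring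
            have e4 : ∑ r, P.ineq r x * c r = ∑ r, c r * P.ineq r x :=
              Finset.sum_congr rfl fun r _ => mul_comm _ _
            simp only
            rw [e3] at e2
            rw [e4]
            linarith
          intro x hx
          rw [e1 x hx, e1 p0 hp0.1]
        · rw [hiq]
          refine ⟨g3, fun j => (g1 j).1, fun j => (g1 j).2, fun j => ?_, ?_⟩
          · show w j * bit (v j) ≤ w j
            have e1 : bit (v j) ≤ 1 := by
              by_cases hv : v j
              · rw [bit_true hv]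
              · rw [bit_false hv]
                norm_num
            have := mul_le_mul_of_nonneg_left e1 (g1 j).1
            linarith
          · rw [hΦ]
            have e2 := g5 p0 hp0.1
            have e3 : ∑ j ∈ S, w j * (P.wire j p0 - bit (¬ v j)) =
                (∑ j ∈ S, (P.wire j p0 - 1) * w j) + ∑ j ∈ S, w j * bit (v j) := by
              rw [← Finset.sum_add_distrib]
              refine Finset.sum_congr rfl fun j _ => ?_
              rw [hbitnot]
              ring
            have e4 : ∑ r, P.ineq r p0 * c r = ∑ r, c r * P.ineq r p0 :=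
              Finset.sum_congr rfl fun r _ => mul_comm _ _
            simp only
            rw [e3] at e2
            rw [e4]
            linarith
        · show w j * bit (v j) ≤ bit (v j)
          have := mul_le_mul_of_nonneg_right (g1 j).2 (bit_nonneg (v j))
          linarith
  · push Not at hne
    refine ⟨⟨0, 0, ⊤, fun r => r.elim0, fun _ => AffineMap.const ℝ _ 0⟩, by simp, ?_, fun v => ?_⟩
    · intro v hv
      exfalso
      apply hv
      refine ⟨Fin.elim0, ⟨AffineSubspace.mem_top _ _ _, fun r => r.elim0⟩, fun j _ => ?_⟩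
      show (0 : ℝ) ≤ bit (v j)
      exact bit_nonneg _
    · refine iff_of_true ⟨Fin.elim0, ⟨AffineSubspace.mem_top _ _ _, fun r => r.elim0⟩,
        fun j _ => ?_⟩ fun ⟨p, hp, _⟩ => hne p hp
      show (0 : ℝ) ≤ bit (v j)
      exact bit_nonneg _

end Pool.Agent.H58.AL
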