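import Pool.Agent.H58.AL.DualGate
import Mathlib.Analysis.Convex.Radon

/-! Monotone formulas in conjunctive normal form and convex programming gates with few unknowns
as linear programming gates. -/

set_option autoImplicit false
set_option linter.unusedSectionVars false

namespace Pool.Agent.H58.AL

open Finset
open Pool.Agent.H58.LG

/-- A monotone CNF is a linear programme with margin 1. -/
theorem exists_cnf {s : ℕ} (T : Finset (Fin s)) (Z : Finset (Finset (Fin s)))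
    (hZ : ∀ A ∈ Z, A ⊆ T) :
    ∃ P : Program (Fin s), P.num = Z.card ∧ P.Margin T 1 ∧
      ∀ v, P.Accepts T v ↔ ∀ A ∈ Z, ∃ j ∈ A, v j := by
  classical
  let pr : Fin s → (Fin s → ℝ) →ᵃ[ℝ] ℝ := fun d =>
    (LinearMap.proj d : (Fin s → ℝ) →ₗ[ℝ] ℝ).toAffineMap
  let iq : {A // A ∈ Z} → (Fin s → ℝ) →ᵃ[ℝ] ℝ := fun A =>
    (∑ j ∈ A.1, (LinearMap.proj j : (Fin s → ℝ) →ₗ[ℝ] ℝ)).toAffineMap -
      AffineMap.const ℝ (Fin s → ℝ) 1
  have hiq : ∀ A p, iq A p = ∑ j ∈ A.1, p j - 1 := by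
    intro A p
    show (∑ j ∈ A.1, (LinearMap.proj j : (Fin s → ℝ) →ₗ[ℝ] ℝ)) p - 1 = _
    rw [LinearMap.sum_apply]
    rfl
  obtain ⟨P, h1, h2, h3⟩ := exists_program (T := Fin s) ⊤ iq pr
  have hneg : ∀ (v : Fin s → Prop) (A : Finset (Fin s)), A ∈ Z → (∀ j ∈ A, ¬ v j) →
      ∀ p : Fin s → ℝ, (∀ i, 0 ≤ iq i p) → 1 ≤ ∑ j ∈ T, max (p j - bit (v j)) 0 := by
    intro v A hA hv p hp
    have e1 := hp ⟨A, hA⟩
    rw [hiq] at e1
    have e2 : ∑ j ∈ A, p j ≤ ∑ j ∈ A, max (p j - bit (v j)) 0 := by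
      refine Finset.sum_le_sum fun j hj => ?_
      rw [bit_false (hv j hj), sub_zero]
      exact le_max_left _ _
    have e3 : ∑ j ∈ A, max (p j - bit (v j)) 0 ≤ ∑ j ∈ T, max (p j - bit (v j)) 0 :=
      Finset.sum_le_sum_of_subset_of_nonneg (hZ A hA) fun j _ _ => le_max_right _ _
    simp only at e1
    linarith
  have hacc : ∀ v, P.Accepts T v ↔ ∀ A ∈ Z, ∃ j ∈ A, v j := by
    intro v
    rw [h2]
    constructor
    · rintro ⟨p, ⟨-, hp⟩, hw⟩ A hA
      by_contra hcon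
      push Not at hcon
      have e1 := hneg v A hA hcon p hp
      have e2 : ∑ j ∈ T, max (p j - bit (v j)) 0 ≤ 0 := by
        refine Finset.sum_nonpos fun j hj => ?_
        have e3 : p j ≤ bit (v j) := hw j hj
        exact max_le (by linarith) le_rfl
      linarith
    · intro h
      refine ⟨fun j => bit (v j), ⟨AffineSubspace.mem_top _ _ _, fun A => ?_⟩, fun j _ => le_rfl⟩
      rw [hiq]
      obtain ⟨j, hj, hvj⟩ := h A.1 A.2
      have e1 : bit (v j) ≤ ∑ j ∈ A.1, bit (v j) :=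
        Finset.single_le_sum (f := fun j => bit (v j)) (fun i _ => bit_nonneg _) hj
      rw [bit_true hvj] at e1
      linarith
  refine ⟨P, by rw [h1, Fintype.card_coe], h3 T 1 fun v hv p _ hp => ?_, hacc⟩
  have hv' : ¬ ∀ A ∈ Z, ∃ j ∈ A, v j := fun h => hv ((h2 T v).mp ((hacc v).mpr h))
  push Not at hv'
  obtain ⟨A, hA, hvA⟩ := hv'
  exact hneg v A hA hvA p hp

/-- the number of small subsets -/
theorem card_small {s : ℕ} (r : ℕ) (Z : Finset (Finset (Fin s))) (hZ : ∀ A ∈ Z, A.card ≤ r) :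
    Z.card ≤ (s + 1) ^ r := by
  classical
  have h1 : Z ⊆ (univ : Finset (Fin r → Option (Fin s))).image
      fun g => univ.filter fun j => ∃ i, g i = some j := by
    intro A hA
    rw [Finset.mem_image]
    have hc := hZ A hA
    let e := A.equivFin
    refine ⟨fun i => if h : i.1 < A.card then some (e.symm ⟨i.1, h⟩).1 else none,
      Finset.mem_univ _, ?_⟩
    ext j
    rw [Finset.mem_filter]
    constructor
    · rintro ⟨-, i, hi⟩
      beta_reduce at hi
      by_cases h : i.1 < A.card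
      · rw [dif_pos h] at hi
        have : (e.symm ⟨i.1, h⟩).1 = j := by simpa using hi
        rw [← this]
        exact (e.symm ⟨i.1, h⟩).2
      · rw [dif_neg h] at hi
        exact absurd hi (by simp)
    · intro hj
      refine ⟨Finset.mem_univ _, ⟨(e ⟨j, hj⟩).1, lt_of_lt_of_le (e ⟨j, hj⟩).2 hc⟩, ?_⟩
      beta_reduce
      rw [dif_pos (e ⟨j, hj⟩).2]
      simp
  refine (Finset.card_le_card h1).trans (Finset.card_image_le.trans (le_of_eq ?_))
  rw [Finset.card_univ, Fintype.card_fun, Fintype.card_option, Fintype.card_fin, Fintype.card_fin]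

/-- **Convex programming gates with few unknowns** are linear programming gates with margin 1. -/
theorem exists_convex {s d : ℕ} (T : Finset (Fin s)) (F₀ F₁ : Fin s → Set (Fin d → ℝ))
    (h0 : ∀ j, Convex ℝ (F₀ j)) (h1 : ∀ j, Convex ℝ (F₁ j)) :
    ∃ P : Program (Fin s), P.num ≤ (s + 1) ^ (d + 1) ∧ P.Margin T 1 ∧
      ∀ v, P.Accepts T v ↔ ∃ p, ∀ j ∈ T, p ∈ F₁ j ∧ (¬ v j → p ∈ F₀ j) := by
  classical
  obtain ⟨Z, hZ⟩ : ∃ Z : Finset (Finset (Fin s)), ∀ A, A ∈ Z ↔ A ⊆ T ∧ A.card ≤ d + 1 ∧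
      ¬ ∃ p : Fin d → ℝ, ∀ j ∈ T, p ∈ F₁ j ∧ (j ∈ A → p ∈ F₀ j) :=
    ⟨univ.filter fun A => A ⊆ T ∧ A.card ≤ d + 1 ∧
      ¬ ∃ p : Fin d → ℝ, ∀ j ∈ T, p ∈ F₁ j ∧ (j ∈ A → p ∈ F₀ j), fun A => by simp⟩
  obtain ⟨P, g1, g2, g3⟩ := exists_cnf T Z fun A hA => ((hZ A).mp hA).1
  refine ⟨P, ?_, g2, fun v => ?_⟩
  · rw [g1]
    exact card_small (d + 1) Z fun A hA => ((hZ A).mp hA).2.1
  · rw [g3]
    constructor
    · intro h
      have hne := Convex.helly_theorem' (𝕜 := ℝ) (E := Fin d → ℝ) (s := T)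
        (F := fun j => {p | p ∈ F₁ j ∧ (¬ v j → p ∈ F₀ j)}) ?_ ?_
      · obtain ⟨p, hp⟩ := hne
        rw [Set.mem_iInter₂] at hp
        exact ⟨p, fun j hj => hp j hj⟩
      · intro j _
        by_cases hv : v j
        · have : {p | p ∈ F₁ j ∧ (¬ v j → p ∈ F₀ j)} = F₁ j := by
            ext p
            simp [hv]
          simp only [this]
          exact h1 j
        · have : {p | p ∈ F₁ j ∧ (¬ v j → p ∈ F₀ j)} = F₁ j ∩ F₀ j := by
            ext p
            simp [hv]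
          simp only [this]
          exact (h1 j).inter (h0 j)
      · intro I hI hIc
        rw [Module.finrank_fin_fun] at hIc
        by_contra hcon
        have hA : I.filter (fun j => ¬ v j) ∈ Z := by
          rw [hZ]
          refine ⟨(Finset.filter_subset _ _).trans hI,
            (Finset.card_le_card (Finset.filter_subset _ _)).trans hIc, ?_⟩
          rintro ⟨p, hp⟩
          refine hcon ⟨p, ?_⟩
          rw [Set.mem_iInter₂]
          intro j hj
          obtain ⟨k1, k2⟩ := hp j (hI hj)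
          exact ⟨k1, fun hv => k2 (Finset.mem_filter.mpr ⟨hj, hv⟩)⟩
        obtain ⟨j, hj, hv⟩ := h _ hA
        exact (Finset.mem_filter.mp hj).2 hv
    · rintro ⟨p, hp⟩ A hA
      by_contra hcon
      push Not at hcon
      refine ((hZ A).mp hA).2.2 ⟨p, fun j hj => ?_⟩
      obtain ⟨k1, k2⟩ := hp j hj
      exact ⟨k1, fun hjA => k2 (hcon j hjA)⟩

end Pool.Agent.H58.AL
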