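import Pool.Agent.H4.MH.Defs
import Pool.Agent.H58.LG.Defs

/-!
Monotone circuits with linear and convex programming gates on any set of variables.
-/

set_option autoImplicit false

namespace Pool.Agent.H58.AL

open Pool.Agent.H58.LG

/-- A circuit with `s` gates and the set of variables `V`, in topological order. Gate `i` is

* the AND of a set `S` of variables and a set `T` of earlier gates,
* or the OR of a set `S` of variables and a set `T` of earlier gates,
* or a linear programme with at most `R` inequalities and margin `ε` which reads a set `T` of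
  earlier gates,
* or a convex programme with `d` real unknowns (and no condition on the margin) which reads a set
  `T` of earlier gates: for each `j` in `T` there are two convex sets `F₁ j` and `F₀ j`, and the
  gate accepts if some point lies in `F₁ j` for all `j` in `T` and in `F₀ j` for all `j` in `T`
  which are false.

`fn i x` is the value of gate `i` when `x` is the set of true variables. -/
structure LPCircuit (V : Type) (s R d : ℕ) (ε : ℝ) where
  /-- the value of a gate -/
  fn : Fin s → (V → Prop) → Prop
  gate : ∀ i, ∃ (S : Set V) (T : Finset (Fin s)), (∀ j ∈ T, j < i) ∧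
    ((∀ x, fn i x ↔ (∀ v ∈ S, x v) ∧ ∀ j ∈ T, fn j x) ∨
      (∀ x, fn i x ↔ (∃ v ∈ S, x v) ∨ ∃ j ∈ T, fn j x) ∨
      (∃ P : Program (Fin s), P.num ≤ R ∧ P.Margin T ε ∧
        ∀ x, fn i x ↔ P.Accepts T fun j => fn j x) ∨
      ∃ F₀ F₁ : Fin s → Set (Fin d → ℝ), (∀ j, Convex ℝ (F₀ j)) ∧ (∀ j, Convex ℝ (F₁ j)) ∧
        ∀ x, fn i x ↔ ∃ p, ∀ j ∈ T, p ∈ F₁ j ∧ (¬ fn j x → p ∈ F₀ j))

end Pool.Agent.H58.AL
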