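import Pool.Agent.H4.MH.Induct
import Pool.Agent.H58.AL.Basic

/-!
The induction on the number of levels for circuits with linear programming gates.
-/

set_option autoImplicit false
set_option linter.unusedSectionVars false

namespace Pool.Agent.H58.AL

open Finset
open Pool.Agent.H25.NM
open Pool.Agent.H4.MH (Tree Var Lin IsSub up dn glue isSub_up isSub_dn forall₂_cond step_num lin_of
  top_num level)

/-- There are distributions on the accepted and on the rejected inputs which satisfy the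
trade-off for all quantified circuits of the dual type. -/
def Hard (n k l R : ℕ) (ε : ℝ) (b : Bool) (ms : List ℕ) : Prop :=
  ∃ (P Ω : Type) (_ : Fintype P) (_ : Fintype Ω) (_ : Nonempty P) (_ : Nonempty Ω)
    (pos : P → Var n ms → Prop) (neg : Ω → Var n ms → Prop),
    (∀ p, Tree n k b ms (pos p)) ∧ (∀ ω, ¬ Tree n k b ms (neg ω)) ∧
    ∀ (s c : ℕ) (qs : List ℕ) (f : (Var n ms → Prop) → Prop), s ≤ 2 ^ l → 2 ≤ c → c ≤ l →
      List.Forall₂ (fun m q => 6 * (q + c) ≤ m) ms qs → Alt s R ε (!b) qs f →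
        Lin pos neg c f b

variable {R : ℕ} {ε : ℝ}

/-- Steps of type AND: the distributions and the two bounds. -/
theorem step_false {n k l m : ℕ} {ms : List ℕ} (hm : 0 < m) (h : Hard n k l R ε true ms) :
    ∃ (P Ω : Type) (_ : Fintype P) (_ : Fintype Ω) (_ : Nonempty P) (_ : Nonempty Ω)
      (pos : P → Var n (m :: ms) → Prop) (neg : Ω → Var n (m :: ms) → Prop),
      (∀ p, Tree n k false (m :: ms) (pos p)) ∧ (∀ ω, ¬ Tree n k false (m :: ms) (neg ω)) ∧
      ∀ (s c c' q : ℕ) (qs : List ℕ) (f : (Var n (m :: ms) → Prop) → Prop),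
        s ≤ 2 ^ l → 2 ≤ c' → c' ≤ l →
        List.Forall₂ (fun m q => 6 * (q + c') ≤ m) ms qs → Alt s R ε true (q :: qs) f →
        Fintype.card P ≤ 2 ^ c * nc (fun p => f (pos p)) →
        (nc (fun ω => ¬ f (neg ω)) : ℝ) ≤
          (7 / 5 * (q + c) / m + (1 / 2) ^ c') * Fintype.card Ω := by
  obtain ⟨P, Ω, _, _, _, _, pos, neg, hpos, hneg, hh⟩ := h
  have : Nonempty (Fin m) := ⟨⟨0, hm⟩⟩
  have hm' : (0 : ℝ) < m := by exact_mod_cast hm
  refine ⟨Fin m → P, Fin m × Ω, inferInstance, inferInstance, inferInstance, inferInstance,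
    fun p => glue fun i => pos (p i), fun x => up x.1 (neg x.2), fun p i => hpos (p i), ?_, ?_⟩
  · rintro ⟨i, ω⟩ hT
    refine hneg ω ?_
    have h1 : Tree n k true ms fun v => up i (neg ω) (i, v) := hT i
    have h2 : (fun v => up i (neg ω) (i, v)) = neg ω := by
      funext v
      exact propext ⟨fun hv => hv rfl, fun hv _ => hv⟩
    rwa [h2] at h1
  · intro s c c' q qs f hs hc1 hc2 hqs hf h3
    obtain ⟨g, hg, hfg⟩ : ∃ g : (Fin q → Bool) → (Var n (m :: ms) → Prop) → Prop,
      (∀ y, Alt s R ε false qs (g y)) ∧ ∀ x, f x ↔ ∃ y, g y x := hf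
    have hmain := level (P := P) (Ω := Ω) (m := m) (q := q) (c := c) (δ := (1 / 2) ^ c')
      (fun y p => g y (glue fun i => pos (p i))) (fun y i p => g y (up i (pos p)))
      (fun y i ω => ¬ g y (up i (neg ω))) ?_ ?_ ?_
    · have e1 : nc (fun x : Fin m × Ω => ∀ y, ¬ g y (up x.1 (neg x.2))) =
          nc (fun x : Fin m × Ω => ¬ f (up x.1 (neg x.2))) :=
        nc_congr fun x => by rw [hfg, not_exists]
      rw [e1] at hmain
      refine hmain.trans (le_of_eq ?_)
      rw [Fintype.card_prod, Fintype.card_fin]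
      push_cast
      field_simp
    · intro y p hp i
      refine (hg y).mono ?_ hp
      rintro ⟨j, v⟩ hv hj
      have hj' : j = i := hj
      subst hj'
      exact hv
    · intro y i
      exact hh s c' qs (fun x => g y (up i x)) hs hc1 hc2 hqs ((hg y).subst (isSub_up i))
    · refine h3.trans (le_of_eq ?_)
      congr 1
      exact nc_congr fun p => hfg _

/-- Steps of type OR: the distributions and the two bounds. -/
theorem step_true {n k l m : ℕ} {ms : List ℕ} (hm : 0 < m) (h : Hard n k l R ε false ms) :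
    ∃ (P Ω : Type) (_ : Fintype P) (_ : Fintype Ω) (_ : Nonempty P) (_ : Nonempty Ω)
      (pos : P → Var n (m :: ms) → Prop) (neg : Ω → Var n (m :: ms) → Prop),
      (∀ p, Tree n k true (m :: ms) (pos p)) ∧ (∀ ω, ¬ Tree n k true (m :: ms) (neg ω)) ∧
      ∀ (s c c' q : ℕ) (qs : List ℕ) (f : (Var n (m :: ms) → Prop) → Prop),
        s ≤ 2 ^ l → 2 ≤ c' → c' ≤ l →
        List.Forall₂ (fun m q => 6 * (q + c') ≤ m) ms qs → Alt s R ε false (q :: qs) f →
        Fintype.card Ω ≤ 2 ^ c * nc (fun ω => ¬ f (neg ω)) →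
        (nc (fun p => f (pos p)) : ℝ) ≤
          (7 / 5 * (q + c) / m + (1 / 2) ^ c') * Fintype.card P := by
  obtain ⟨P, Ω, _, _, _, _, pos, neg, hpos, hneg, hh⟩ := h
  have : Nonempty (Fin m) := ⟨⟨0, hm⟩⟩
  have hm' : (0 : ℝ) < m := by exact_mod_cast hm
  refine ⟨Fin m × P, Fin m → Ω, inferInstance, inferInstance, inferInstance, inferInstance,
    fun x => dn x.1 (pos x.2), fun ω => glue fun i => neg (ω i), ?_, ?_, ?_⟩
  · rintro ⟨i, p⟩
    refine ⟨i, ?_⟩
    have h2 : (fun v => dn i (pos p) (i, v)) = pos p := by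
      funext v
      exact propext ⟨fun hv => hv.2, fun hv => ⟨rfl, hv⟩⟩
    show Tree n k false ms fun v => dn i (pos p) (i, v)
    rw [h2]
    exact hpos p
  · rintro ω ⟨i, hi⟩
    exact hneg (ω i) hi
  · intro s c c' q qs f hs hc1 hc2 hqs hf h3
    obtain ⟨g, hg, hfg⟩ : ∃ g : (Fin q → Bool) → (Var n (m :: ms) → Prop) → Prop,
      (∀ y, Alt s R ε true qs (g y)) ∧ ∀ x, f x ↔ ∀ y, g y x := hf
    have hmain := level (P := Ω) (Ω := P) (m := m) (q := q) (c := c) (δ := (1 / 2) ^ c')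
      (fun y ω => ¬ g y (glue fun i => neg (ω i))) (fun y i ω => ¬ g y (dn i (neg ω)))
      (fun y i p => g y (dn i (pos p))) ?_ ?_ ?_
    · have e1 : nc (fun x : Fin m × P => ∀ y, g y (dn x.1 (pos x.2))) =
          nc (fun x : Fin m × P => f (dn x.1 (pos x.2))) :=
        nc_congr fun x => (hfg _).symm
      rw [e1] at hmain
      refine hmain.trans (le_of_eq ?_)
      rw [Fintype.card_prod, Fintype.card_fin]
      push_cast
      field_simp
    · intro y ω hω i hg'
      refine hω ((hg y).mono ?_ hg')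
      rintro ⟨j, v⟩ ⟨hj, hv⟩
      have hj' : j = i := hj
      subst hj'
      exact hv
    · intro y i
      exact hh s c' qs (fun x => g y (dn i x)) hs hc1 hc2 hqs ((hg y).subst (isSub_dn i))
    · refine h3.trans (le_of_eq ?_)
      congr 1
      refine nc_congr fun ω => ?_
      rw [hfg, not_forall]

theorem hard_false {n k l m : ℕ} {ms : List ℕ} (hm : 0 < m) (hl : 2 ≤ l)
    (h : Hard n k l R ε true ms) : Hard n k l R ε false (m :: ms) := by
  obtain ⟨P, Ω, i1, i2, i3, i4, pos, neg, hpos, hneg, hh⟩ := step_false hm h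
  refine ⟨P, Ω, i1, i2, i3, i4, pos, neg, hpos, hneg, ?_⟩
  intro s c qs f hs hc1 hc2 hqs hf
  cases hqs with
  | @cons _ q _ qs hq hqs =>
    exact lin_of Fintype.card_pos (nc_le_card _) (step_num hm hq)
      (hh s c 2 q qs f hs le_rfl hl (forall₂_cond hc1 hqs) hf) Fintype.card_pos (nc_le_card _)

theorem hard_true {n k l m : ℕ} {ms : List ℕ} (hm : 0 < m) (hl : 2 ≤ l)
    (h : Hard n k l R ε false ms) : Hard n k l R ε true (m :: ms) := by
  obtain ⟨P, Ω, i1, i2, i3, i4, pos, neg, hpos, hneg, hh⟩ := step_true hm h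
  refine ⟨P, Ω, i1, i2, i3, i4, pos, neg, hpos, hneg, ?_⟩
  intro s c qs f hs hc1 hc2 hqs hf
  cases hqs with
  | @cons _ q _ qs hq hqs =>
    exact lin_of Fintype.card_pos (nc_le_card _) (step_num hm hq)
      (hh s c 2 q qs f hs le_rfl hl (forall₂_cond hc1 hqs) hf) Fintype.card_pos (nc_le_card _)

theorem hard_all {n k l : ℕ} (hl : 2 ≤ l) (h0 : ∀ b, Hard n k l R ε b []) :
    ∀ (ms : List ℕ) (b : Bool), (∀ m ∈ ms, 0 < m) → Hard n k l R ε b ms := by
  intro ms
  induction ms with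
  | nil => exact fun b _ => h0 b
  | cons m ms ih =>
    intro b hm
    cases b with
    | true =>
      exact hard_true (hm m List.mem_cons_self) hl
        (ih false fun m' hm' => hm m' (List.mem_cons_of_mem _ hm'))
    | false =>
      exact hard_false (hm m List.mem_cons_self) hl
        (ih true fun m' hm' => hm m' (List.mem_cons_of_mem _ hm'))

/-- **The lower bound, on average.** -/
theorem top {n k l m : ℕ} {ms : List ℕ} (b : Bool) (hm : 0 < m) (h : Hard n k l R ε (!b) ms) :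
    ∃ (P Ω : Type) (_ : Fintype P) (_ : Fintype Ω) (_ : Nonempty P) (_ : Nonempty Ω)
      (pos : P → Var n (m :: ms) → Prop) (neg : Ω → Var n (m :: ms) → Prop),
      (∀ p, Tree n k b (m :: ms) (pos p)) ∧ (∀ ω, ¬ Tree n k b (m :: ms) (neg ω)) ∧
      ∀ (s a q : ℕ) (qs : List ℕ) (f : (Var n (m :: ms) → Prop) → Prop), s ≤ 2 ^ l → a + 2 ≤ l →
        2 ^ (a + 1) * (q + a + 1) ≤ m → List.Forall₂ (fun m q => 6 * (q + a + 2) ≤ m) ms qs →
        Alt s R ε (!b) (q :: qs) f →
        ¬ (Fintype.card P ≤ 2 ^ a * nc (fun p => f (pos p)) ∧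
          Fintype.card Ω ≤ 2 ^ a * nc (fun ω => ¬ f (neg ω))) := by
  have key : ∀ (A : ℕ) (x a q : ℕ), 0 < A → 2 ^ (a + 1) * (q + a + 1) ≤ m → A ≤ 2 ^ a * x →
      (x : ℝ) ≤ (7 / 5 * (q + a) / m + (1 / 2) ^ (a + 2)) * A → False := by
    intro A x a q hA hq h1 h2
    have hA' : (0 : ℝ) < A := by exact_mod_cast hA
    have h3 : (A : ℝ) ≤ 2 ^ a * x := by exact_mod_cast h1
    have h4 := mul_le_mul_of_nonneg_left h2 (by positivity : (0 : ℝ) ≤ 2 ^ a)
    have h5 := mul_lt_mul_of_pos_right (top_num hm hq) hA'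
    rw [← mul_assoc] at h4
    linarith
  cases b with
  | true =>
    obtain ⟨P, Ω, i1, i2, i3, i4, pos, neg, hpos, hneg, hh⟩ := step_true hm h
    refine ⟨P, Ω, i1, i2, i3, i4, pos, neg, hpos, hneg, ?_⟩
    rintro s a q qs f hs ha hq hqs hf ⟨h1, h2⟩
    exact key _ _ a q Fintype.card_pos hq h1
      (hh s a (a + 2) q qs f hs (by omega) ha hqs hf h2)
  | false =>
    obtain ⟨P, Ω, i1, i2, i3, i4, pos, neg, hpos, hneg, hh⟩ := step_false hm h
    refine ⟨P, Ω, i1, i2, i3, i4, pos, neg, hpos, hneg, ?_⟩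
    rintro s a q qs f hs ha hq hqs hf ⟨h1, h2⟩
    exact key _ _ a q Fintype.card_pos hq h2
      (hh s a (a + 2) q qs f hs (by omega) ha hqs hf h1)

end Pool.Agent.H58.AL
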