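import Pool.Agent.H58.LG.Cq
import Pool.Agent.H58.LG.Lev

/-! The number of colourings which are injective on a small set, from below. -/

set_option autoImplicit false
set_option linter.unusedSectionVars false

namespace Pool.Agent.H58.AL

open Finset
open Pool.Agent.H58.LG
open Pool.Agent.H25.NM (nc nc_eq nc_congr nc_mono nc_le_card nc_false nc_true nc_equiv
  sum_update nc_eq_sum_nat)

theorem nc_inj_lower {V γ : Type} [Fintype V] [DecidableEq V] [Fintype γ] [DecidableEq γ]
    [Nonempty γ] (S : Finset V) (hS : 2 * S.card ≤ Fintype.card γ) :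
    Fintype.card (V → γ) ≤ 2 ^ S.card * nc (fun y : V → γ => Set.InjOn y S) := by
  classical
  obtain ⟨q, hq⟩ : ∃ q, q = Fintype.card γ := ⟨_, rfl⟩
  rw [← hq] at hS
  have hq1 : 1 ≤ q := by
    rw [hq]
    exact Fintype.card_pos
  induction S using Finset.induction_on with
  | empty =>
    rw [Finset.card_empty, pow_zero, one_mul, nc_true]
    intro y
    simp
  | insert a S ha ih =>
    have hc : (insert a S).card = S.card + 1 := Finset.card_insert_of_notMem ha
    rw [hc] at hS ⊢
    have ih' := ih (by omega)
    have h1 : (q - S.card) * nc (fun y : V → γ => Set.InjOn y S) ≤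
        q * nc (fun y : V → γ => Set.InjOn y (insert a S : Finset V)) := by
      have h2 := sum_update (R := ℕ) a fun y : V → γ =>
        if Set.InjOn y (insert a S : Finset V) then 1 else 0
      rw [smul_eq_mul, ← hq, ← nc_eq_sum_nat fun y : V → γ =>
        Set.InjOn y (insert a S : Finset V)] at h2
      rw [← h2, nc_eq_sum_nat (fun y : V → γ => Set.InjOn y S), Finset.mul_sum]
      refine Finset.sum_le_sum fun y _ => ?_
      rw [← nc_eq_sum_nat fun c : γ => Set.InjOn (Function.update y a c) (insert a S : Finset V)]
      by_cases hy : Set.InjOn y (S : Set V)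
      · rw [if_pos hy, mul_one, nc_eq]
        have h3 : univ \ S.image y ⊆ (univ.filter fun c : γ => Set.InjOn (Function.update y a c)
            (insert a S : Finset V)) := by
          intro c hc
          rw [Finset.mem_sdiff] at hc
          have hc' := hc.2
          rw [Finset.mem_filter]
          refine ⟨Finset.mem_univ _, fun b hb b' hb' hbb => ?_⟩
          rcases Finset.mem_insert.mp (Finset.mem_coe.mp hb) with h4 | h4
          · rcases Finset.mem_insert.mp (Finset.mem_coe.mp hb') with h5 | h5
            · rw [h4, h5]
            · have n : b' ≠ a := fun h => ha (h ▸ h5)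
              rw [h4, Function.update_self, Function.update_of_ne n] at hbb
              exact absurd (Finset.mem_image.mpr ⟨b', h5, hbb.symm⟩) hc'
          · have n : b ≠ a := fun h => ha (h ▸ h4)
            rcases Finset.mem_insert.mp (Finset.mem_coe.mp hb') with h5 | h5
            · rw [h5, Function.update_self, Function.update_of_ne n] at hbb
              exact absurd (Finset.mem_image.mpr ⟨b, h4, hbb⟩) hc'
            · have n' : b' ≠ a := fun h => ha (h ▸ h5)
              rw [Function.update_of_ne n, Function.update_of_ne n'] at hbb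
              exact hy (Finset.mem_coe.mpr h4) (Finset.mem_coe.mpr h5) hbb
        refine le_trans (le_of_eq ?_) (Finset.card_le_card h3)
        rw [Finset.card_sdiff_of_subset (Finset.subset_univ _), Finset.card_univ, ← hq,
          Finset.card_image_of_injOn hy]
      · rw [if_neg hy, mul_zero]
        exact Nat.zero_le _
    refine Nat.le_of_mul_le_mul_left ?_ (show 0 < q by omega)
    calc q * Fintype.card (V → γ)
        ≤ q * (2 ^ S.card * nc (fun y : V → γ => Set.InjOn y S)) := Nat.mul_le_mul_left _ ih'
      _ = 2 ^ S.card * (q * nc (fun y : V → γ => Set.InjOn y S)) := by ring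
      _ ≤ 2 ^ S.card * ((2 * (q - S.card)) * nc (fun y : V → γ => Set.InjOn y S)) :=
          Nat.mul_le_mul_left _ (Nat.mul_le_mul_right _ (by omega))
      _ = 2 ^ S.card * 2 * ((q - S.card) * nc (fun y : V → γ => Set.InjOn y S)) := by ring
      _ ≤ 2 ^ S.card * 2 * (q * nc (fun y : V → γ => Set.InjOn y (insert a S : Finset V))) :=
          Nat.mul_le_mul_left _ h1
      _ = q * (2 ^ (S.card + 1) *
          nc (fun y : V → γ => Set.InjOn y (insert a S : Finset V))) := by
          rw [pow_succ]
          ring

variable {ι α γ : Type} [Fintype ι] [DecidableEq ι] [Fintype α] [DecidableEq α] [Fintype γ]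
  [DecidableEq γ]

/-- Many colourings are injective on a small set of points of a transversal. -/
theorem card_injOn [Nonempty γ] (b : ι → α) (J : Finset ι) (hJ : 2 * J.card ≤ Fintype.card γ) :
    Fintype.card (ι → α → γ) ≤
      2 ^ J.card * nc (fun y : ι → α → γ => Set.InjOn (zz b y) J) := by
  classical
  let S : Finset (ι × α) := J.map ⟨fun i => (i, b i), fun i j h => (Prod.ext_iff.mp h).1⟩
  have hS : S.card = J.card := Finset.card_map _
  have h1 := nc_inj_lower (V := ι × α) (γ := γ) S (by rw [hS]; exact hJ)
  rw [hS, ← nc_equiv (Equiv.curry ι α γ).symm, Fintype.card_congr (Equiv.curry ι α γ)] at h1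
  refine h1.trans (Nat.mul_le_mul_left _ (nc_mono fun y hy i hi j hj hij => ?_))
  have h2 : ((i, b i) : ι × α) = (j, b j) := by
    refine hy ?_ ?_ hij
    · exact Finset.mem_coe.mpr (Finset.mem_map_of_mem _ (Finset.mem_coe.mp hi))
    · exact Finset.mem_coe.mpr (Finset.mem_map_of_mem _ (Finset.mem_coe.mp hj))
  exact (Prod.ext_iff.mp h2).1

end Pool.Agent.H58.AL
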