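import Pool.Agent.H58.AL.Inj
import Pool.Agent.H58.LG.Dag

/-! The trade-off between the numbers of accepted transversals and of rejected colourings. -/

set_option autoImplicit false
set_option linter.unusedSectionVars false

namespace Pool.Agent.H58.AL

open Finset
open Pool.Agent.H58.LG
open Pool.Agent.H25.NM (nc nc_eq nc_add_nc_not)

variable {ι α γ : Type} [Fintype ι] [DecidableEq ι] [Fintype α] [DecidableEq α] [Fintype γ]
  [DecidableEq γ]

/-- **Trade-off.** -/
theorem trade [Nonempty γ] {s N : ℕ} {ε : ℝ}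
    (P : Par (Fintype.card ι) (Fintype.card γ) (Fintype.card α) s N ε)
    (U : Fin s → (ι → α) → Prop) (V : Fin s → (ι → α → γ) → Prop)
    (hgate : ∀ i, Dead P.d (U i) (V i) ∨ Rel N ε U V i) (o : Fin s)
    (X : Finset (ι → α)) (Y : Finset (ι → α → γ)) (hXU : ∀ x ∈ X, U o x) (hYV : ∀ y ∈ Y, V o y)
    (hX : (s + 1) * (P.η * (Fintype.card α : ℝ) ^ Fintype.card ι) < X.card) :
    ∃ j : ℕ, j ≤ P.d ∧
      (P.κ * Fintype.card α) ^ j * (X.card - s * (P.η * (Fintype.card α : ℝ) ^ Fintype.card ι)) ≤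
        (Fintype.card α : ℝ) ^ Fintype.card ι ∧
      (1 / 2) ^ j * (Fintype.card (ι → α → γ) : ℝ) + Y.card ≤ Fintype.card (ι → α → γ) +
        (1 + (s : ℝ) * (2 ^ Fintype.card ι * (Fintype.card α : ℝ) ^ Fintype.card ι)) *
          ((1 / 2) ^ P.t * Fintype.card (ι → α → γ)) := by
  classical
  obtain ⟨E, F, hE, hF, hdead⟩ := dead_all P U V hgate s
  obtain ⟨X', hX'⟩ : ∃ X', X' = X \ E := ⟨_, rfl⟩
  have hκm := P.hκm
  obtain ⟨m, hm⟩ : ∃ m : ℝ, m = Fintype.card α := ⟨_, rfl⟩
  rw [← hm] at hX hE hF hκm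
  rw [← hm]
  obtain ⟨M, hM⟩ : ∃ M : ℝ, M = m ^ Fintype.card ι := ⟨_, rfl⟩
  rw [← hM] at hX hE hF
  rw [← hM]
  have hmpos : 0 < m := by
    by_contra h3
    push Not at h3
    have : P.κ * m ≤ 0 := mul_nonpos_of_nonneg_of_nonpos P.hκ.le h3
    linarith
  have hM0 : 0 < M := by rw [hM]; positivity
  have hηpos := P.hη
  have hX'c : (X.card : ℝ) - s * (P.η * M) ≤ X'.card := by
    have h1 : (X.card : ℝ) ≤ X'.card + E.card := by
      rw [hX']
      have h2 : X.card ≤ (X \ E).card + E.card := by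
        have := Finset.card_le_card (show X ⊆ (X \ E) ∪ E by
          intro x hx
          by_cases h : x ∈ E
          · exact Finset.mem_union_right _ h
          · exact Finset.mem_union_left _ (Finset.mem_sdiff.mpr ⟨hx, h⟩))
        exact this.trans (Finset.card_union_le _ _)
      exact_mod_cast h2
    linarith
  have hX'η : P.η * M < X'.card := by
    have : (s + 1) * (P.η * M) = s * (P.η * M) + P.η * M := by ring
    linarith
  have hX'ne : X'.Nonempty := by
    rw [← Finset.card_pos]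
    have h1 : (0 : ℝ) < X'.card := lt_trans (by positivity) hX'η
    exact_mod_cast h1
  obtain ⟨x0, hx0⟩ := hX'ne
  obtain ⟨J, b, -, h1, h2⟩ := select (F := ∅) P.hκ x0
    (f := fun x => if x ∈ X' then (1 : ℝ) else 0) (fun x => by split_ifs <;> norm_num)
  rw [Finset.empty_union] at h2
  have e1 : ∑ x : ι → α, (if x ∈ X' then (1 : ℝ) else 0) = X'.card := by
    rw [Finset.sum_ite_mem, Finset.univ_inter, Finset.sum_const, nsmul_eq_mul, mul_one]
  have e2 : ∑ x ∈ agr J b, (if x ∈ X' then (1 : ℝ) else 0) = (agr J b ∩ X').card := by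
    rw [Finset.sum_ite_mem, Finset.sum_const, nsmul_eq_mul, mul_one]
  have h3 := spread_of_select (agr J b ∩ X') (fun x => by
    by_cases h4 : x ∈ agr J b <;> by_cases h5 : x ∈ X' <;> simp [h4, h5]) h2
  rw [e1, e2] at h1
  have hX'pos : (0 : ℝ) < X'.card := lt_trans (by positivity) hX'η
  have hκpos := P.hκ
  have hX2c : (0 : ℝ) < (agr J b ∩ X').card := lt_of_lt_of_le (by positivity) h1
  have h5 : ((agr J b).card : ℝ) * m ^ J.card = M := by
    rw [hM, hm]
    exact_mod_cast card_agr J b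
  have h6 : ((agr J b ∩ X').card : ℝ) ≤ (agr J b).card := by
    exact_mod_cast Finset.card_le_card Finset.inter_subset_left
  have h7 : (P.κ * m) ^ J.card * X'.card ≤ (agr J b ∩ X').card * m ^ J.card := by
    rw [mul_pow]
    have := mul_le_mul_of_nonneg_right h1 (show 0 ≤ m ^ J.card by positivity)
    linarith
  have h9 : (P.κ * m) ^ J.card * X'.card ≤ M := by
    refine h7.trans ?_
    rw [← h5]
    exact mul_le_mul_of_nonneg_right h6 (by positivity)
  have hJd : J.card ≤ P.d := by
    by_contra hcon2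
    push Not at hcon2
    have h8 : (P.κ * m) ^ (P.d + 1) ≤ (P.κ * m) ^ J.card := pow_le_pow_right₀ hκm hcon2
    have hκm0 : 0 < P.κ * m := by positivity
    have h10 : (P.κ * m) ^ J.card * (P.η * M) < M :=
      lt_of_lt_of_le (mul_lt_mul_of_pos_left hX'η (by positivity)) h9
    have hdd := P.hd
    rw [← hm] at hdd
    have h11 : 1 ≤ (P.κ * m) ^ J.card * P.η := hdd.trans (mul_le_mul_of_nonneg_right h8 hηpos.le)
    nlinarith
  have hκmJ : (1 : ℝ) ≤ (P.κ * m) ^ J.card := one_le_pow₀ hκm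
  refine ⟨J.card, hJd, ?_, ?_⟩
  · exact (mul_le_mul_of_nonneg_left hX'c (by positivity)).trans h9
  · obtain ⟨T, hT⟩ : ∃ T : ℝ, T = Fintype.card (ι → α → γ) := ⟨_, rfl⟩
    rw [← hT] at hF ⊢
    obtain ⟨Y', hY'⟩ : ∃ Y', Y' = (Y \ F).filter fun y => Set.InjOn (zz b y) J := ⟨_, rfl⟩
    obtain ⟨x1, hx1⟩ : (agr J b ∩ X').Nonempty := by
      rw [← Finset.card_pos]
      exact_mod_cast hX2c
    have hsmall : (2 : ℝ) ^ P.t * Y'.card < T := by
      by_contra hcon
      push Not at hcon
      have hfin := node (C := Unit) (R := Fin 0) P.hp P.htp (I := J) (x0 := b) P.hdD P.hdD'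
        hJd P.hq P.hκ P.hκ1 P.hη P.hκm P.hd' (agr J b ∩ X') ⟨x1, hx1⟩
        (fun x hx i hi => mem_agr.mp (Finset.mem_inter.mp hx).1 i hi) h3
        (by
          rw [← hm, ← hM]
          have : 1 * (X'.card : ℝ) ≤ (P.κ * m) ^ J.card * X'.card :=
            mul_le_mul_of_nonneg_right hκmJ hX'pos.le
          linarith) Y'
        (fun y hy => by
          rw [hY'] at hy
          exact (Finset.mem_filter.mp hy).2) (by rw [← hT]; exact hcon) P.hh0 P.hh P.hρ P.hρ1
        (fun _ x => U o x) (fun _ y => V o y) (fun _ _ => 1) (fun _ _ _ => by norm_num)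
        (fun _ _ _ => le_rfl)
        (fun _ x' hx' hU => by
          have h1 : x' ∈ X ∧ x' ∉ E := by
            have h4 := (Finset.mem_inter.mp hx').2
            rw [hX'] at h4
            exact Finset.mem_sdiff.mp h4
          obtain ⟨K, hK1, hK2⟩ := hdead o o.2 x' ⟨hU, h1.2⟩
          refine ⟨K, hK1, fun y hy hyV => hK2 y ⟨hyV, ?_⟩⟩
          rw [hY'] at hy
          exact (Finset.mem_sdiff.mp (Finset.mem_filter.mp hy).1).2)
        (fun _ _ => 0) (fun _ _ => 0) (fun _ _ _ => le_rfl) (fun _ _ _ => le_rfl) (ε := 1)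
        (by norm_num)
        (fun x' hx' y hy => by
          have h1 : U o x' := by
            have h4 := (Finset.mem_inter.mp hx').2
            rw [hX'] at h4
            exact hXU x' (Finset.mem_sdiff.mp h4).1
          have h2 : V o y := by
            rw [hY'] at hy
            exact hYV y (Finset.mem_sdiff.mp (Finset.mem_filter.mp hy).1).1
          simp [h1, h2])
      rw [Fintype.card_unit, Fintype.card_fin, Nat.cast_zero, zero_mul, Nat.cast_one, one_mul,
        add_zero] at hfin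
      have := P.n1
      linarith
    have hsmall' : (Y'.card : ℝ) ≤ (1 / 2) ^ P.t * T := by
      have h4 : (1 / 2 : ℝ) ^ P.t * 2 ^ P.t = 1 := by
        rw [← mul_pow]
        norm_num
      calc (Y'.card : ℝ) = (1 / 2) ^ P.t * (2 ^ P.t * Y'.card) := by
            rw [← mul_assoc, h4, one_mul]
        _ ≤ _ := mul_le_mul_of_nonneg_left hsmall.le (by positivity)
    have hq := P.hq
    have hinj := card_injOn (γ := γ) b J (by omega)
    have hnot := nc_add_nc_not fun y : ι → α → γ => Set.InjOn (zz b y) J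
    have hYc : Y.card ≤ F.card + Y'.card +
        nc (fun y : ι → α → γ => ¬ Set.InjOn (zz b y) J) := by
      rw [nc_eq, hY']
      have hsub : Y ⊆ (F ∪ (Y \ F).filter fun y => Set.InjOn (zz b y) J) ∪
          univ.filter fun y : ι → α → γ => ¬ Set.InjOn (zz b y) J := by
        intro y hy
        by_cases h4 : y ∈ F
        · exact Finset.mem_union_left _ (Finset.mem_union_left _ h4)
        · by_cases h5 : Set.InjOn (zz b y) J
          · exact Finset.mem_union_left _ (Finset.mem_union_right _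
              (Finset.mem_filter.mpr ⟨Finset.mem_sdiff.mpr ⟨hy, h4⟩, h5⟩))
          · exact Finset.mem_union_right _ (Finset.mem_filter.mpr ⟨Finset.mem_univ _, h5⟩)
      refine (Finset.card_le_card hsub).trans ((Finset.card_union_le _ _).trans ?_)
      exact Nat.add_le_add_right (Finset.card_union_le _ _) _
    obtain ⟨I0, hI0⟩ : ∃ I0 : ℝ, I0 = nc (fun y : ι → α → γ => Set.InjOn (zz b y) J) := ⟨_, rfl⟩
    obtain ⟨I1, hI1⟩ : ∃ I1 : ℝ, I1 = nc (fun y : ι → α → γ => ¬ Set.InjOn (zz b y) J) :=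
      ⟨_, rfl⟩
    have hinj' : T ≤ 2 ^ J.card * I0 := by
      rw [hT, hI0]
      exact_mod_cast hinj
    have hnot' : I0 + I1 = T := by
      rw [hT, hI0, hI1]
      exact_mod_cast hnot
    have hYc' : (Y.card : ℝ) ≤ F.card + Y'.card + I1 := by
      rw [hI1]
      exact_mod_cast hYc
    have hhalf : (1 / 2 : ℝ) ^ J.card * T ≤ I0 := by
      have h4 : (1 / 2 : ℝ) ^ J.card * 2 ^ J.card = 1 := by
        rw [← mul_pow]
        norm_num
      calc (1 / 2 : ℝ) ^ J.card * T ≤ (1 / 2) ^ J.card * (2 ^ J.card * I0) :=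
            mul_le_mul_of_nonneg_left hinj' (by positivity)
        _ = I0 := by rw [← mul_assoc, h4, one_mul]
    have hexp : (1 + (s : ℝ) * (2 ^ Fintype.card ι * M)) * ((1 / 2) ^ P.t * T) =
        (1 / 2) ^ P.t * T + s * (2 ^ Fintype.card ι * M * ((1 / 2) ^ P.t * T)) := by ring
    rw [hexp]
    linarith

end Pool.Agent.H58.AL
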